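import Pool.Agent.R790.Rtd.Fub

/-!
Eliminating pendant four-cycles and three-edge paths.
-/

open MeasureTheory Function
open scoped ENNReal

namespace Pool.Agent.R790.Rtd

variable {A B X Y : Type} [Fintype A] [DecidableEq A] [Fintype B] [DecidableEq B]
  [MeasurableSpace X] [MeasurableSpace Y] (μ : Measure X) (ν : Measure Y)
  [IsProbabilityMeasure μ] [IsProbabilityMeasure ν] {w : X × Y → ℝ≥0∞}

/-- the kernel with the two sides exchanged -/
def swp (w : X × Y → ℝ≥0∞) : Y × X → ℝ≥0∞ := fun z => w (z.2, z.1)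

omit [MeasurableSpace X] [MeasurableSpace Y] in
lemma swp_swp (w : X × Y → ℝ≥0∞) : swp (swp w) = w := rfl

lemma swp_meas (hw : Measurable w) : Measurable (swp w) := by
  unfold swp; fun_prop

/-- a pendant four-cycle rooted at a first-side vertex -/
lemma c4A (hw : Measurable w) (a0 a1 : A) (b1 b2 : B) (ha : a0 ≠ a1) (hb : b1 ≠ b2)
    (Φ : (A → X) × (B → Y) → ℝ≥0∞) (hΦ : Measurable Φ)
    (hi : ∀ p x, Φ (update p.1 a1 x, p.2) = Φ p)
    (hi1 : ∀ p y, Φ (p.1, update p.2 b1 y) = Φ p)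
    (hi2 : ∀ p y, Φ (p.1, update p.2 b2 y) = Φ p) :
    ∫⁻ p, Φ p * (w (p.1 a0, p.2 b1) * w (p.1 a1, p.2 b1) *
        (w (p.1 a0, p.2 b2) * w (p.1 a1, p.2 b2))) ∂(PP A B μ ν) =
      ∫⁻ p, Φ p * alp μ ν w (p.1 a0) ∂(PP A B μ ν) := by
  have hc := cod_meas ν hw
  have e1 := blockB μ ν b1
    (fun p : (A → X) × (B → Y) => Φ p * (w (p.1 a0, p.2 b2) * w (p.1 a1, p.2 b2)))
    (fun q => w (q.1.1 a0, q.2) * w (q.1.1 a1, q.2)) (by fun_prop) (by fun_prop)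
    (fun p y => by simp only [hi1, update_of_ne hb.symm]) (fun p y => rfl)
  have e2 := blockB μ ν b2
    (fun p : (A → X) × (B → Y) => Φ p * cod ν w (p.1 a0, p.1 a1))
    (fun q => w (q.1.1 a0, q.2) * w (q.1.1 a1, q.2)) (by fun_prop) (by fun_prop)
    (fun p y => by simp only [hi2]) (fun p y => rfl)
  have e3 := blockA μ ν a1 Φ
    (fun q => cod ν w (q.1.1 a0, q.2) * cod ν w (q.1.1 a0, q.2)) hΦ (by fun_prop)
    hi (fun p x => by simp only [update_of_ne ha])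
  calc _ = ∫⁻ p, Φ p * (w (p.1 a0, p.2 b2) * w (p.1 a1, p.2 b2)) *
        (w (p.1 a0, p.2 b1) * w (p.1 a1, p.2 b1)) ∂(PP A B μ ν) :=
        lintegral_congr fun p => by ring
    _ = _ := e1
    _ = ∫⁻ p, Φ p * cod ν w (p.1 a0, p.1 a1) * (w (p.1 a0, p.2 b2) * w (p.1 a1, p.2 b2))
        ∂(PP A B μ ν) := lintegral_congr fun p => by simp only [cod]; ring
    _ = _ := e2
    _ = ∫⁻ p, Φ p * (cod ν w (p.1 a0, p.1 a1) * cod ν w (p.1 a0, p.1 a1)) ∂(PP A B μ ν) :=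
        lintegral_congr fun p => by simp only [cod]; ring
    _ = _ := e3

/-- a pendant four-cycle rooted at a second-side vertex -/
lemma c4B (hw : Measurable w) (b0 b1 : B) (a1 a2 : A) (hb : b0 ≠ b1) (ha : a1 ≠ a2)
    (Φ : (A → X) × (B → Y) → ℝ≥0∞) (hΦ : Measurable Φ)
    (hi : ∀ p y, Φ (p.1, update p.2 b1 y) = Φ p)
    (hi1 : ∀ p x, Φ (update p.1 a1 x, p.2) = Φ p)
    (hi2 : ∀ p x, Φ (update p.1 a2 x, p.2) = Φ p) :
    ∫⁻ p, Φ p * (w (p.1 a1, p.2 b0) * w (p.1 a1, p.2 b1) *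
        (w (p.1 a2, p.2 b0) * w (p.1 a2, p.2 b1))) ∂(PP A B μ ν) =
      ∫⁻ p, Φ p * alp ν μ (swp w) (p.2 b0) ∂(PP A B μ ν) := by
  have hc := cod_meas μ (swp_meas hw)
  have e1 := blockA μ ν a1
    (fun p : (A → X) × (B → Y) => Φ p * (w (p.1 a2, p.2 b0) * w (p.1 a2, p.2 b1)))
    (fun q => w (q.2, q.1.2 b0) * w (q.2, q.1.2 b1)) (by fun_prop) (by fun_prop)
    (fun p y => by simp only [hi1, update_of_ne ha.symm]) (fun p y => rfl)
  have e2 := blockA μ ν a2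
    (fun p : (A → X) × (B → Y) => Φ p * cod μ (swp w) (p.2 b0, p.2 b1))
    (fun q => w (q.2, q.1.2 b0) * w (q.2, q.1.2 b1)) (by fun_prop) (by fun_prop)
    (fun p y => by simp only [hi2]) (fun p y => rfl)
  have e3 := blockB μ ν b1 Φ
    (fun q => cod μ (swp w) (q.1.2 b0, q.2) * cod μ (swp w) (q.1.2 b0, q.2)) hΦ (by fun_prop)
    hi (fun p x => by simp only [update_of_ne hb])
  calc _ = ∫⁻ p, Φ p * (w (p.1 a2, p.2 b0) * w (p.1 a2, p.2 b1)) *
        (w (p.1 a1, p.2 b0) * w (p.1 a1, p.2 b1)) ∂(PP A B μ ν) :=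
        lintegral_congr fun p => by ring
    _ = _ := e1
    _ = ∫⁻ p, Φ p * cod μ (swp w) (p.2 b0, p.2 b1) *
        (w (p.1 a2, p.2 b0) * w (p.1 a2, p.2 b1))
        ∂(PP A B μ ν) := lintegral_congr fun p => by simp only [cod, swp]; ring
    _ = _ := e2
    _ = ∫⁻ p, Φ p * (cod μ (swp w) (p.2 b0, p.2 b1) * cod μ (swp w) (p.2 b0, p.2 b1))
        ∂(PP A B μ ν) :=
        lintegral_congr fun p => by simp only [cod, swp]; ring
    _ = _ := e3

/-- a path of three edges between `a0` and `b0` with inner vertices `b1`, `a1` -/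
lemma pathAB (hw : Measurable w) (a0 a1 : A) (b0 b1 : B) (ha : a0 ≠ a1) (hb : b0 ≠ b1)
    (Φ : (A → X) × (B → Y) → ℝ≥0∞) (hΦ : Measurable Φ)
    (hi : ∀ p x, Φ (update p.1 a1 x, p.2) = Φ p)
    (hi1 : ∀ p y, Φ (p.1, update p.2 b1 y) = Φ p) :
    ∫⁻ p, Φ p * (w (p.1 a0, p.2 b1) * w (p.1 a1, p.2 b1) * w (p.1 a1, p.2 b0)) ∂(PP A B μ ν) =
      ∫⁻ p, Φ p * ker3 μ ν w (p.1 a0, p.2 b0) ∂(PP A B μ ν) := by
  have hc := cod_meas ν hw
  have e1 := blockB μ ν b1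
    (fun p : (A → X) × (B → Y) => Φ p * w (p.1 a1, p.2 b0))
    (fun q => w (q.1.1 a0, q.2) * w (q.1.1 a1, q.2)) (by fun_prop) (by fun_prop)
    (fun p y => by simp only [hi1, update_of_ne hb]) (fun p y => rfl)
  have e2 := blockA μ ν a1 Φ
    (fun q => cod ν w (q.1.1 a0, q.2) * w (q.2, q.1.2 b0)) hΦ (by fun_prop)
    hi (fun p x => by simp only [update_of_ne ha])
  calc _ = ∫⁻ p, Φ p * w (p.1 a1, p.2 b0) *
        (w (p.1 a0, p.2 b1) * w (p.1 a1, p.2 b1)) ∂(PP A B μ ν) :=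
        lintegral_congr fun p => by ring
    _ = _ := e1
    _ = ∫⁻ p, Φ p * (cod ν w (p.1 a0, p.1 a1) * w (p.1 a1, p.2 b0))
        ∂(PP A B μ ν) := lintegral_congr fun p => by simp only [cod]; ring
    _ = _ := e2

omit [IsProbabilityMeasure ν] in
lemma lint_const (c : ℝ≥0∞) [IsProbabilityMeasure ν] :
    ∫⁻ _ : (A → X) × (B → Y), c ∂(PP A B μ ν) = c := by
  simp

/-- The density of a four-cycle. -/
lemma c4form (hw : Measurable w) (a0 a1 : A) (b1 b2 : B) (ha : a0 ≠ a1) (hb : b1 ≠ b2) :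
    ∫⁻ p, (w (p.1 a0, p.2 b1) * w (p.1 a1, p.2 b1) *
        (w (p.1 a0, p.2 b2) * w (p.1 a1, p.2 b2))) ∂(PP A B μ ν) =
      ∫⁻ x, alp μ ν w x ∂μ := by
  have h := c4A μ ν hw a0 a1 b1 b2 ha hb (fun _ => 1) measurable_const (fun _ _ => rfl)
    (fun _ _ => rfl) (fun _ _ => rfl)
  simp only [one_mul] at h
  rw [h]
  have hal := alp_meas μ ν hw
  have h2 := blockA μ ν a0 (fun _ : (A → X) × (B → Y) => 1) (fun q => alp μ ν w q.2)
    measurable_const (by fun_prop) (fun _ _ => rfl) (fun _ _ => rfl)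
  simp only [one_mul] at h2
  rw [h2, lint_const]

/-- The density of two four-cycles joined by a path of three edges. -/
lemma dumb (hw : Measurable w) (a0 a1 a2 a3 a4 : A) (b0 b1 b2 b3 b4 : B)
    (ha : [a0, a1, a2, a3, a4].Nodup) (hb : [b0, b1, b2, b3, b4].Nodup) :
    ∫⁻ p, (w (p.1 a0, p.2 b2) * w (p.1 a1, p.2 b2) * (w (p.1 a0, p.2 b3) * w (p.1 a1, p.2 b3))) *
      (w (p.1 a2, p.2 b0) * w (p.1 a2, p.2 b1) * (w (p.1 a3, p.2 b0) * w (p.1 a3, p.2 b1))) *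
      (w (p.1 a0, p.2 b4) * w (p.1 a4, p.2 b4) * w (p.1 a4, p.2 b0)) ∂(PP A B μ ν) =
      ∫⁻ x, alp μ ν w x * ∫⁻ y, ker3 μ ν w (x, y) * alp ν μ (swp w) y ∂ν ∂μ := by
  have hal := alp_meas μ ν hw
  have hbe := alp_meas ν μ (swp_meas hw)
  have hk := ker3_meas μ ν hw
  simp only [List.nodup_cons, List.mem_cons, not_or, List.not_mem_nil, not_false_eq_true,
    List.nodup_nil, and_true] at ha hb
  obtain ⟨⟨h01, h02, h03, h04⟩, ⟨h12, h13, h14⟩, ⟨h23, h24⟩, h34⟩ := ha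
  obtain ⟨⟨k01, k02, k03, k04⟩, ⟨k12, k13, k14⟩, ⟨k23, k24⟩, k34⟩ := hb
  have e1 := pathAB μ ν hw a0 a4 b0 b4 h04 k04
    (fun p : (A → X) × (B → Y) => (w (p.1 a0, p.2 b2) * w (p.1 a1, p.2 b2) *
      (w (p.1 a0, p.2 b3) * w (p.1 a1, p.2 b3))) *
      (w (p.1 a2, p.2 b0) * w (p.1 a2, p.2 b1) * (w (p.1 a3, p.2 b0) * w (p.1 a3, p.2 b1))))
    (by fun_prop)
    (fun p x => by simp only [update_of_ne h04, update_of_ne h14, update_of_ne h24,
      update_of_ne h34])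
    (fun p x => by simp only [update_of_ne k04, update_of_ne k14, update_of_ne k24,
      update_of_ne k34])
  have e2 := c4A μ ν hw a0 a1 b2 b3 h01 k23
    (fun p : (A → X) × (B → Y) =>
      (w (p.1 a2, p.2 b0) * w (p.1 a2, p.2 b1) * (w (p.1 a3, p.2 b0) * w (p.1 a3, p.2 b1))) *
      ker3 μ ν w (p.1 a0, p.2 b0))
    (by fun_prop)
    (fun p x => by simp only [update_of_ne h01, update_of_ne (Ne.symm h12),
      update_of_ne (Ne.symm h13)])
    (fun p x => by simp only [update_of_ne k02, update_of_ne k12])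
    (fun p x => by simp only [update_of_ne k03, update_of_ne k13])
  have e3 := c4B μ ν hw b0 b1 a2 a3 k01 h23
    (fun p : (A → X) × (B → Y) => ker3 μ ν w (p.1 a0, p.2 b0) * alp μ ν w (p.1 a0))
    (by fun_prop)
    (fun p x => by simp only [update_of_ne k01])
    (fun p x => by simp only [update_of_ne h02])
    (fun p x => by simp only [update_of_ne h03])
  have e4 := blockB μ ν b0
    (fun p : (A → X) × (B → Y) => alp μ ν w (p.1 a0))
    (fun q => ker3 μ ν w (q.1.1 a0, q.2) * alp ν μ (swp w) q.2) (by fun_prop) (by fun_prop)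
    (fun p y => rfl) (fun p y => rfl)
  have hm : Measurable fun x : X => ∫⁻ y, ker3 μ ν w (x, y) * alp ν μ (swp w) y ∂ν :=
    Measurable.lintegral_prod_right' (f := fun q : X × Y => ker3 μ ν w (q.1, q.2) *
      alp ν μ (swp w) q.2) (by fun_prop)
  have e5 := blockA μ ν a0 (fun _ : (A → X) × (B → Y) => 1)
    (fun q => alp μ ν w q.2 * ∫⁻ y, ker3 μ ν w (q.2, y) * alp ν μ (swp w) y ∂ν)
    measurable_const (by fun_prop) (fun _ _ => rfl) (fun _ _ => rfl)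
  simp only [one_mul] at e5
  calc _ = _ := e1
    _ = ∫⁻ p, ((w (p.1 a2, p.2 b0) * w (p.1 a2, p.2 b1) *
        (w (p.1 a3, p.2 b0) * w (p.1 a3, p.2 b1))) *
        ker3 μ ν w (p.1 a0, p.2 b0)) * (w (p.1 a0, p.2 b2) * w (p.1 a1, p.2 b2) *
        (w (p.1 a0, p.2 b3) * w (p.1 a1, p.2 b3))) ∂(PP A B μ ν) :=
        lintegral_congr fun p => by ring
    _ = _ := e2
    _ = ∫⁻ p, (ker3 μ ν w (p.1 a0, p.2 b0) * alp μ ν w (p.1 a0)) *
        (w (p.1 a2, p.2 b0) * w (p.1 a2, p.2 b1) *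
        (w (p.1 a3, p.2 b0) * w (p.1 a3, p.2 b1))) ∂(PP A B μ ν) :=
        lintegral_congr fun p => by ring
    _ = _ := e3
    _ = ∫⁻ p, alp μ ν w (p.1 a0) * (ker3 μ ν w (p.1 a0, p.2 b0) *
        alp ν μ (swp w) (p.2 b0)) ∂(PP A B μ ν) :=
        lintegral_congr fun p => by ring
    _ = _ := e4
    _ = _ := e5
    _ = _ := lint_const μ ν _

end Pool.Agent.R790.Rtd
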