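import Pool.Agent.R790.Rtd.Dom

/-!
The explicit bigraph with 22 vertices and 25 edges and its reflective tree decomposition.
-/

open MeasureTheory Function
open scoped ENNReal

namespace Pool.Agent.R790.Rtd

/-- the edges of the example -/
def gList : List (Fin 11 × Fin 11) :=
  [(0, 4), (2, 4), (0, 5), (2, 5), (1, 6), (3, 6), (1, 7), (3, 7),
   (4, 0), (4, 2), (5, 0), (5, 2), (6, 1), (6, 3), (7, 1), (7, 3),
   (0, 8), (8, 8), (8, 0), (0, 9), (9, 9), (9, 1), (1, 10), (10, 10), (10, 0)]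

/-- the example -/
def GG : Bigraph (Fin 11) (Fin 11) where
  edges := gList.toFinset

/-- first-side part of the bags -/
def sA : Fin 3 → Finset (Fin 11)
  | 0 => {0, 2, 6, 7, 9}
  | 1 => {0, 2, 4, 5, 8}
  | 2 => {1, 3, 4, 5, 10}

/-- second-side part of the bags -/
def sB : Fin 3 → Finset (Fin 11)
  | 0 => {1, 3, 4, 5, 9}
  | 1 => {0, 2, 4, 5, 8}
  | 2 => {0, 2, 6, 7, 10}

/-- the bags -/
def bg (i : Fin 3) : Finset (Fin 11 ⊕ Fin 11) := (sA i).disjSum (sB i)

lemma relCore_eq {A B : Type} [Fintype A] [Fintype B] [DecidableEq A] [DecidableEq B]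
    (G : Bigraph A B) (U S : Finset (A ⊕ B)) (h : ∀ v ∈ U, 2 ≤ G.degIn U v) :
    G.relCore U S = U := by
  unfold Bigraph.relCore
  apply Finset.Subset.antisymm
  · intro v hv
    simp only [Finset.mem_biUnion, Finset.mem_filter, Finset.mem_powerset, id] at hv
    obtain ⟨K, ⟨hK, -⟩, hv⟩ := hv
    exact hK hv
  · intro v hv
    simp only [Finset.mem_biUnion, Finset.mem_filter, Finset.mem_powerset, id]
    exact ⟨U, ⟨Finset.Subset.refl _, fun v hv => Or.inr (h v hv)⟩, hv⟩

lemma deg_bg : ∀ i : Fin 3, ∀ v ∈ bg i, 2 ≤ GG.degIn (bg i) v := by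
  decide +kernel

lemma relCore_bg (i : Fin 3) (S : Finset (Fin 11 ⊕ Fin 11)) : GG.relCore (bg i) S = bg i :=
  relCore_eq _ _ _ (deg_bg i)

lemma core_bg (i : Fin 3) : GG.core (bg i) = bg i := relCore_bg i ∅

lemma iso_of_perm {A B : Type} [Fintype A] [Fintype B] [DecidableEq A] [DecidableEq B]
    (G : Bigraph A B) (K L S : Finset (A ⊕ B)) (σ : Equiv.Perm A) (τ : Equiv.Perm B)
    (hA : ∀ a, Sum.inl a ∈ K ↔ Sum.inl (σ a) ∈ L) (hB : ∀ b, Sum.inr b ∈ K ↔ Sum.inr (τ b) ∈ L)
    (he : ∀ a b, Sum.inl a ∈ K → Sum.inr b ∈ K → ((a, b) ∈ G.edges ↔ (σ a, τ b) ∈ G.edges))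
    (hfa : ∀ a, Sum.inl a ∈ S → σ a = a) (hfb : ∀ b, Sum.inr b ∈ S → τ b = b) :
    G.IsoFixing K L S := by
  refine ⟨σ.subtypeEquiv hA, τ.subtypeEquiv hB, ?_, ?_, ?_⟩
  · rintro ⟨a, ha⟩ ⟨b, hb⟩
    simp only [Bigraph.induce, Finset.mem_filter, Finset.mem_univ, true_and]
    exact he a b ha hb
  · rintro ⟨a, ha⟩ h
    exact hfa a h
  · rintro ⟨b, hb⟩ h
    exact hfb b h

/-- permutation of the first side exchanging bags 0 and 1 -/
def s01 : Equiv.Perm (Fin 11) := Equiv.swap 6 4 * Equiv.swap 7 5 * Equiv.swap 9 8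
/-- permutation of the second side exchanging bags 0 and 1 -/
def t01 : Equiv.Perm (Fin 11) := Equiv.swap 1 0 * Equiv.swap 3 2 * Equiv.swap 9 8
/-- permutation of the first side exchanging bags 1 and 2 -/
def s12 : Equiv.Perm (Fin 11) := Equiv.swap 0 1 * Equiv.swap 2 3 * Equiv.swap 8 10
/-- permutation of the second side exchanging bags 1 and 2 -/
def t12 : Equiv.Perm (Fin 11) := Equiv.swap 4 6 * Equiv.swap 5 7 * Equiv.swap 8 10

lemma iso01 : GG.IsoFixing (bg 0) (bg 1) (bg 0 ∩ bg 1) :=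
  iso_of_perm GG _ _ _ s01 t01 (by decide +kernel) (by decide +kernel) (by decide +kernel)
    (by decide +kernel) (by decide +kernel)

lemma iso10 : GG.IsoFixing (bg 1) (bg 0) (bg 1 ∩ bg 0) :=
  iso_of_perm GG _ _ _ s01 t01 (by decide +kernel) (by decide +kernel) (by decide +kernel)
    (by decide +kernel) (by decide +kernel)

lemma iso12 : GG.IsoFixing (bg 1) (bg 2) (bg 1 ∩ bg 2) :=
  iso_of_perm GG _ _ _ s12 t12 (by decide +kernel) (by decide +kernel) (by decide +kernel)
    (by decide +kernel) (by decide +kernel)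

lemma iso21 : GG.IsoFixing (bg 2) (bg 1) (bg 2 ∩ bg 1) :=
  iso_of_perm GG _ _ _ s12 t12 (by decide +kernel) (by decide +kernel) (by decide +kernel)
    (by decide +kernel) (by decide +kernel)

/-- the tree: a path with three nodes -/
def TT : SimpleGraph (Fin 3) := SimpleGraph.pathGraph 3

lemma TT_adj (i j : Fin 3) : TT.Adj i j ↔ (i.val + 1 = j.val ∨ j.val + 1 = i.val) :=
  SimpleGraph.pathGraph_adj

instance : DecidableRel TT.Adj := fun i j => decidable_of_iff _ (TT_adj i j).symm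

lemma TT_tree : TT.IsTree := by
  rw [SimpleGraph.isTree_iff_connected_and_card]
  refine ⟨SimpleGraph.pathGraph_connected 2, ?_⟩
  rw [Nat.card_eq_fintype_card, Nat.card_eq_fintype_card, ← SimpleGraph.edgeFinset_card]
  decide +kernel

lemma TT_cases (i j : Fin 3) (h : TT.Adj i j) :
    (i = 0 ∧ j = 1) ∨ (i = 1 ∧ j = 0) ∨ (i = 1 ∧ j = 2) ∨ (i = 2 ∧ j = 1) := by
  revert i j; decide +kernel

lemma TT_non : ∀ i j : Fin 3, ¬ i = j → ¬ TT.Adj i j → (i = 0 ∧ j = 2) ∨ (i = 2 ∧ j = 0) := by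
  decide +kernel

lemma inter02 : bg 0 ∩ bg 2 = ∅ := by decide +kernel
lemma inter20 : bg 2 ∩ bg 0 = ∅ := by decide +kernel

/-- the reflective tree decomposition of the example -/
def DD : RefTreeDec GG (Fin 3) where
  T := TT
  isTree := TT_tree
  bag := bg
  bag_inj := by
    have : ∀ i j : Fin 3, bg i = bg j → i = j := by decide +kernel
    exact this
  cover := by decide +kernel
  cover_edge := by decide +kernel
  path := by
    intro i j p hp k hk
    by_cases hij : i = j
    · subst hij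
      have := SimpleGraph.Walk.isPath_iff_eq_nil.1 hp
      subst this
      simp only [SimpleGraph.Walk.support_nil, List.mem_singleton] at hk
      subst hk
      exact Finset.inter_subset_left
    by_cases ha : TT.Adj i j
    · have hq : (SimpleGraph.Walk.cons ha SimpleGraph.Walk.nil).IsPath := by
        simp [hij]
      have := (TT_tree.isAcyclic.subsingleton_path i j).elim ⟨p, hp⟩ ⟨_, hq⟩
      have hpe : p = SimpleGraph.Walk.cons ha SimpleGraph.Walk.nil := congrArg Subtype.val this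
      subst hpe
      simp only [SimpleGraph.Walk.support_cons, SimpleGraph.Walk.support_nil, List.mem_cons,
        List.not_mem_nil, or_false] at hk
      rcases hk with rfl | rfl
      · exact Finset.inter_subset_left
      · exact Finset.inter_subset_right
    · rcases TT_non i j hij ha with ⟨rfl, rfl⟩ | ⟨rfl, rfl⟩
      · rw [inter02]; exact Finset.empty_subset _
      · rw [inter20]; exact Finset.empty_subset _
  refl := by
    intro i j h
    rw [relCore_bg, relCore_bg]
    rcases TT_cases i j h with ⟨rfl, rfl⟩ | ⟨rfl, rfl⟩ | ⟨rfl, rfl⟩ | ⟨rfl, rfl⟩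
    · exact iso01
    · exact iso10
    · exact iso12
    · exact iso21

lemma ein0 : edgesIn GG (bg 0) = [(0, 4), (2, 4), (0, 5), (2, 5), (6, 1), (6, 3), (7, 1), (7, 3),
    (0, 9), (9, 9), (9, 1)].toFinset := by decide +kernel
lemma ein1 : edgesIn GG (bg 1) = [(0, 4), (2, 4), (0, 5), (2, 5), (4, 0), (4, 2), (5, 0), (5, 2),
    (0, 8), (8, 8), (8, 0)].toFinset := by decide +kernel
lemma ein2 : edgesIn GG (bg 2) = [(1, 6), (3, 6), (1, 7), (3, 7), (4, 0), (4, 2), (5, 0), (5, 2),
    (1, 10), (10, 10), (10, 0)].toFinset := by decide +kernel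
lemma ein01 : edgesIn GG (bg 0 ∩ bg 1) = [(0, 4), (2, 4), (0, 5), (2, 5)].toFinset := by
  decide +kernel
lemma ein10 : edgesIn GG (bg 1 ∩ bg 0) = [(0, 4), (2, 4), (0, 5), (2, 5)].toFinset := by
  decide +kernel
lemma ein12 : edgesIn GG (bg 1 ∩ bg 2) = [(4, 0), (5, 0), (4, 2), (5, 2)].toFinset := by
  decide +kernel
lemma ein21 : edgesIn GG (bg 2 ∩ bg 1) = [(4, 0), (5, 0), (4, 2), (5, 2)].toFinset := by
  decide +kernel

lemma dom_all (k : Fin 3) (S : Finset (Fin 11 ⊕ Fin 11)) (a0' a1' b1' b2' : Fin 11)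
    (ha' : a0' ≠ a1') (hb' : b1' ≠ b2')
    (hS : edgesIn GG S = [(a0', b1'), (a1', b1'), (a0', b2'), (a1', b2')].toFinset) :
    WeaklyDominates (GG.induce (GG.core (bg k))) (GG.induce S) := by
  rw [core_bg]
  have hk : k = 0 ∨ k = 1 ∨ k = 2 := by revert k; decide
  rcases hk with rfl | rfl | rfl
  · exact dom_real GG _ S 0 2 6 7 9 1 3 4 5 9 (by decide) (by decide) ein0 a0' a1' b1' b2'
      ha' hb' hS
  · exact dom_real GG _ S 0 2 4 5 8 0 2 4 5 8 (by decide) (by decide) ein1 a0' a1' b1' b2'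
      ha' hb' hS
  · exact dom_real GG _ S 1 3 4 5 10 0 2 6 7 10 (by decide) (by decide) ein2 a0' a1' b1' b2'
      ha' hb' hS

lemma hyp : ∀ i j k, DD.T.Adj i j →
    WeaklyDominates (GG.induce (GG.core (DD.bag k))) (GG.induce (DD.bag i ∩ DD.bag j)) := by
  intro i j k h
  change WeaklyDominates (GG.induce (GG.core (bg k))) (GG.induce (bg i ∩ bg j))
  rcases TT_cases i j h with ⟨rfl, rfl⟩ | ⟨rfl, rfl⟩ | ⟨rfl, rfl⟩ | ⟨rfl, rfl⟩
  · exact dom_all k _ 0 2 4 5 (by decide) (by decide) ein01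
  · exact dom_all k _ 0 2 4 5 (by decide) (by decide) ein10
  · exact dom_all k _ 4 5 0 2 (by decide) (by decide) ein12
  · exact dom_all k _ 4 5 0 2 (by decide) (by decide) ein21

/-- the vertex set of the union of the first and the last bag -/
def UU : Finset (Fin 11 ⊕ Fin 11) := bg 0 ∪ bg 2

lemma einU : edgesIn GG UU = [(0, 4), (2, 4), (0, 5), (2, 5), (6, 1), (6, 3), (7, 1), (7, 3),
    (0, 9), (9, 9), (9, 1), (1, 6), (3, 6), (1, 7), (3, 7), (4, 0), (4, 2), (5, 0), (5, 2),
    (1, 10), (10, 10), (10, 0)].toFinset := by decide +kernel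

lemma union_eq : ({0, 2} : Finset (Fin 3)).biUnion DD.bag = UU := by
  change ({0, 2} : Finset (Fin 3)).biUnion bg = UU
  decide +kernel

/-- adjacency in the underlying graph -/
lemma adjE {a b : Fin 11} (h : (a, b) ∈ GG.edges) :
    GG.toGraph.Adj (Sum.inl a) (Sum.inr b) := h

lemma conn : GG.toGraph.Connected := by
  have E : ∀ a b : Fin 11, (a, b) ∈ GG.edges → GG.toGraph.Reachable (Sum.inl a) (Sum.inr b) :=
    fun a b h => (adjE h).reachable
  have b4 := E 0 4 (by decide +kernel)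
  have b5 := E 0 5 (by decide +kernel)
  have b8 := E 0 8 (by decide +kernel)
  have b9 := E 0 9 (by decide +kernel)
  have a2 := b4.trans (E 2 4 (by decide +kernel)).symm
  have a8 := b8.trans (E 8 8 (by decide +kernel)).symm
  have b0 := a8.trans (E 8 0 (by decide +kernel))
  have a9 := b9.trans (E 9 9 (by decide +kernel)).symm
  have b1 := a9.trans (E 9 1 (by decide +kernel))
  have a4 := b0.trans (E 4 0 (by decide +kernel)).symm
  have a5 := b0.trans (E 5 0 (by decide +kernel)).symm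
  have b2 := a4.trans (E 4 2 (by decide +kernel))
  have a6 := b1.trans (E 6 1 (by decide +kernel)).symm
  have a7 := b1.trans (E 7 1 (by decide +kernel)).symm
  have b3 := a6.trans (E 6 3 (by decide +kernel))
  have a10 := b0.trans (E 10 0 (by decide +kernel)).symm
  have b10 := a10.trans (E 10 10 (by decide +kernel))
  have a1 := b10.trans (E 1 10 (by decide +kernel)).symm
  have b6 := a1.trans (E 1 6 (by decide +kernel))
  have b7 := a1.trans (E 1 7 (by decide +kernel))
  have a3 := b6.trans (E 3 6 (by decide +kernel)).symm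
  have key : ∀ v, GG.toGraph.Reachable (Sum.inl 0) v := by
    rintro (v | v) <;> fin_cases v
    · exact SimpleGraph.Reachable.refl _
    all_goals assumption
  rw [SimpleGraph.connected_iff]
  exact ⟨fun u v => (key u).symm.trans (key v), ⟨Sum.inl 0⟩⟩

end Pool.Agent.R790.Rtd
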