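import Mathlib

/-!
Definitions for MP_3a8b9a_co: bigraphs, bigraphons, homomorphism densities,
weak domination, relative 2-cores and reflective tree decompositions.
-/

open MeasureTheory

namespace Pool.Agent.R790.Rtd

/-- A bigraph with (finite) sides `A` and `B`: a finite set of pairs. -/
structure Bigraph (A B : Type) where
  /-- the edge set, a finite subset of `A × B` -/
  edges : Finset (A × B)

namespace Bigraph

variable {A B : Type}

/-- The number of edges. -/
def numEdges (G : Bigraph A B) : ℕ := G.edges.card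

/-- The sub-bigraph induced on a set `U` of vertices (vertices of the two sides are
`Sum.inl a` and `Sum.inr b`). -/
def induce [DecidableEq A] [DecidableEq B] (G : Bigraph A B) (U : Finset (A ⊕ B))
    [Fintype A] [Fintype B] :
    Bigraph {a : A // Sum.inl a ∈ U} {b : B // Sum.inr b ∈ U} where
  edges := Finset.univ.filter fun e => (e.1.1, e.2.1) ∈ G.edges

/-- The underlying graph on the disjoint union of the two sides. -/
def toGraph (G : Bigraph A B) : SimpleGraph (A ⊕ B) where
  Adj v w := match v, w with
    | Sum.inl a, Sum.inr b => (a, b) ∈ G.edges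
    | Sum.inr b, Sum.inl a => (a, b) ∈ G.edges
    | _, _ => False
  symm := ⟨fun v w h => by cases v <;> cases w <;> simp_all⟩
  loopless := ⟨fun v h => by cases v <;> simp_all⟩

/-- The number of neighbours of a vertex inside a vertex set `K`. -/
def degIn [Fintype A] [Fintype B] [DecidableEq A] [DecidableEq B]
    (G : Bigraph A B) (K : Finset (A ⊕ B)) : A ⊕ B → ℕ
  | Sum.inl a => (Finset.univ.filter fun b : B => Sum.inr b ∈ K ∧ (a, b) ∈ G.edges).card
  | Sum.inr b => (Finset.univ.filter fun a : A => Sum.inl a ∈ K ∧ (a, b) ∈ G.edges).card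

/-- The vertex set of the 2-core relative to `S` of the sub-bigraph induced on `U`: the union of
all `K ⊆ U` in which every vertex outside `S` has at least two neighbours in `K`; this is what
remains after repeatedly deleting vertices outside `S` of degree less than two. -/
def relCore [Fintype A] [Fintype B] [DecidableEq A] [DecidableEq B]
    (G : Bigraph A B) (U S : Finset (A ⊕ B)) : Finset (A ⊕ B) :=
  (U.powerset.filter fun K => ∀ v ∈ K, v ∈ S ∨ 2 ≤ G.degIn K v).biUnion id

/-- The vertex set of the 2-core of the sub-bigraph induced on `U`. -/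
def core [Fintype A] [Fintype B] [DecidableEq A] [DecidableEq B]
    (G : Bigraph A B) (U : Finset (A ⊕ B)) : Finset (A ⊕ B) :=
  G.relCore U ∅

/-- The sub-bigraphs induced on `K` and `L` are isomorphic via a side-preserving isomorphism
fixing every vertex of `S`. -/
def IsoFixing [Fintype A] [Fintype B] [DecidableEq A] [DecidableEq B]
    (G : Bigraph A B) (K L S : Finset (A ⊕ B)) : Prop :=
  ∃ (f : {a : A // Sum.inl a ∈ K} ≃ {a : A // Sum.inl a ∈ L})
    (g : {b : B // Sum.inr b ∈ K} ≃ {b : B // Sum.inr b ∈ L}),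
    (∀ a b, (a, b) ∈ (G.induce K).edges ↔ (f a, g b) ∈ (G.induce L).edges) ∧
    (∀ a, Sum.inl a.1 ∈ S → (f a).1 = a.1) ∧
    (∀ b, Sum.inr b.1 ∈ S → (g b).1 = b.1)

end Bigraph

/-- The bigraph with one edge. -/
def rho : Bigraph Unit Unit where
  edges := Finset.univ

/-- A bigraphon: a bounded measurable nonnegative function on a product of two probability
spaces. -/
structure IsBigraphon {X Y : Type} [MeasurableSpace X] [MeasurableSpace Y]
    (W : X × Y → ℝ) : Prop where
  measurable : Measurable W
  nonneg : ∀ z, 0 ≤ W z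
  bounded : ∃ M : ℝ, ∀ z, W z ≤ M

/-- The density of the bigraph `G` in `W`. -/
noncomputable def density {A B : Type} [Fintype A] [Fintype B] (G : Bigraph A B)
    {X Y : Type} [MeasurableSpace X] [MeasurableSpace Y] (μ : Measure X) (ν : Measure Y)
    (W : X × Y → ℝ) : ℝ :=
  ∫ p : (A → X) × (B → Y), ∏ e ∈ G.edges, W (p.1 e.1, p.2 e.2)
    ∂((Measure.pi fun _ => μ).prod (Measure.pi fun _ => ν))

/-- `W` is biregular: both marginals are almost everywhere equal to the edge density. -/
def IsBiregular {X Y : Type} [MeasurableSpace X] [MeasurableSpace Y] (μ : Measure X)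
    (ν : Measure Y) (W : X × Y → ℝ) : Prop :=
  (∀ᵐ x ∂μ, ∫ y, W (x, y) ∂ν = density rho μ ν W) ∧
  (∀ᵐ y ∂ν, ∫ x, W (x, y) ∂μ = density rho μ ν W)

/-- `G₁` weakly dominates `G₂`: for every non-zero biregular bigraphon the normalized density of
`G₁` is at least that of `G₂`. -/
def WeaklyDominates {A₁ B₁ A₂ B₂ : Type} [Fintype A₁] [Fintype B₁] [Fintype A₂] [Fintype B₂]
    (G₁ : Bigraph A₁ B₁) (G₂ : Bigraph A₂ B₂) : Prop :=
  ∀ (X Y : Type) [MeasurableSpace X] [MeasurableSpace Y] (μ : Measure X) (ν : Measure Y)
    [IsProbabilityMeasure μ] [IsProbabilityMeasure ν] (W : X × Y → ℝ),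
    IsBigraphon W → density rho μ ν W ≠ 0 → IsBiregular μ ν W →
    density G₂ μ ν W / density rho μ ν W ^ G₂.numEdges ≤
      density G₁ μ ν W / density rho μ ν W ^ G₁.numEdges

/-- A reflective tree decomposition of `G`: a tree `T` whose nodes carry distinct vertex sets
(bags) of `G` with the four listed properties. -/
structure RefTreeDec {A B : Type} [Fintype A] [Fintype B] [DecidableEq A] [DecidableEq B]
    (G : Bigraph A B) (ι : Type) where
  /-- the tree -/
  T : SimpleGraph ι
  isTree : T.IsTree
  /-- the bags -/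
  bag : ι → Finset (A ⊕ B)
  bag_inj : Function.Injective bag
  cover : ∀ v : A ⊕ B, ∃ i, v ∈ bag i
  cover_edge : ∀ e ∈ G.edges, ∃ i, Sum.inl e.1 ∈ bag i ∧ Sum.inr e.2 ∈ bag i
  path : ∀ (i j : ι) (p : T.Walk i j), p.IsPath → ∀ k ∈ p.support, bag i ∩ bag j ⊆ bag k
  refl : ∀ i j, T.Adj i j →
    G.IsoFixing (G.relCore (bag i) (bag i ∩ bag j)) (G.relCore (bag j) (bag i ∩ bag j))
      (bag i ∩ bag j)

/-- The assertion of Q1. The core `H` of the decomposition is the 2-core of any of the bags. -/
def Assertion : Prop :=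
  ∀ (A B : Type) [Fintype A] [Fintype B] [DecidableEq A] [DecidableEq B] (G : Bigraph A B),
    G.toGraph.Connected → G.edges.Nonempty →
    ∀ (ι : Type) [Fintype ι] [DecidableEq ι] (D : RefTreeDec G ι),
      (∀ i j k, D.T.Adj i j →
        WeaklyDominates (G.induce (G.core (D.bag k))) (G.induce (D.bag i ∩ D.bag j))) →
      ∀ V : Finset ι, V.Nonempty → WeaklyDominates G (G.induce (V.biUnion D.bag))

end Pool.Agent.R790.Rtd
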