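import Pool.Agent.R790.Rtd.Block
import Pool.Agent.R790.Rtd.Defs

/-!
The lower bound for the density of two four-cycles joined by a path of three edges, and the
translation between the real-valued and the extended nonnegative densities.
-/

set_option linter.unusedSimpArgs false
set_option linter.unusedSectionVars false

open MeasureTheory Function
open scoped ENNReal

namespace Pool.Agent.R790.Rtd

section enn
variable {X Y : Type}
  [MeasurableSpace X] [MeasurableSpace Y] (μ : Measure X) (ν : Measure Y)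
  [IsProbabilityMeasure μ] [IsProbabilityMeasure ν] {w : X × Y → ℝ≥0∞}

lemma sq_lint_le {f : X → ℝ≥0∞} (hf : AEMeasurable f μ) :
    (∫⁻ x, f x ∂μ) * (∫⁻ x, f x ∂μ) ≤ ∫⁻ x, f x * f x ∂μ := by
  have h := ENNReal.lintegral_mul_le_Lp_mul_Lq μ Real.HolderConjugate.two_two hf
    (g := fun _ => 1) aemeasurable_const
  simp only [Pi.mul_apply, mul_one, ENNReal.one_rpow, lintegral_const, measure_univ] at h
  have h2 := mul_le_mul' h h
  refine h2.trans (le_of_eq ?_)
  rw [← ENNReal.rpow_add_of_nonneg _ _ (by norm_num) (by norm_num)]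
  norm_num
  refine lintegral_congr fun x => ?_
  rw [sq]

lemma alp_ge (hw : Measurable w) {c : ℝ≥0∞} (hx : ∀ᵐ x ∂μ, ∫⁻ y, w (x, y) ∂ν = c)
    (hy : ∀ᵐ y ∂ν, ∫⁻ x, w (x, y) ∂μ = c) :
    ∀ᵐ y ∂ν, c ^ 4 ≤ alp ν μ (swp w) y := by
  filter_upwards [hy] with y hy
  have hc := cod_meas μ (swp_meas hw)
  have h1 : ∫⁻ y', cod μ (swp w) (y, y') ∂ν = c * c := by
    have : ∫⁻ y', cod μ (swp w) (y, y') ∂ν = ∫⁻ y', ∫⁻ x, w (x, y) * w (x, y') ∂μ ∂ν := rfl
    rw [this, lintegral_lintegral_swap (by fun_prop)]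
    calc ∫⁻ x, ∫⁻ y', w (x, y) * w (x, y') ∂ν ∂μ = ∫⁻ x, w (x, y) * ∫⁻ y', w (x, y') ∂ν ∂μ :=
          lintegral_congr fun x => lintegral_const_mul _ (by fun_prop)
      _ = ∫⁻ x, w (x, y) * c ∂μ := lintegral_congr_ae (by
          filter_upwards [hx] with x hx; rw [hx])
      _ = c * c := by rw [lintegral_mul_const _ (by fun_prop), hy]
  calc c ^ 4 = (c * c) * (c * c) := by ring
    _ ≤ _ := by
      rw [← h1]
      exact sq_lint_le ν (f := fun y' => cod μ (swp w) (y, y')) (by fun_prop)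

lemma ker3_marg (hw : Measurable w) {c : ℝ≥0∞} (hx : ∀ᵐ x ∂μ, ∫⁻ y, w (x, y) ∂ν = c)
    (hy : ∀ᵐ y ∂ν, ∫⁻ x, w (x, y) ∂μ = c) :
    ∀ᵐ x ∂μ, ∫⁻ y, ker3 μ ν w (x, y) ∂ν = c ^ 3 := by
  filter_upwards [hx] with x hx'
  have hc := cod_meas ν hw
  calc ∫⁻ y, ker3 μ ν w (x, y) ∂ν = ∫⁻ y, ∫⁻ x', cod ν w (x, x') * w (x', y) ∂μ ∂ν := rfl
    _ = ∫⁻ x', ∫⁻ y, cod ν w (x, x') * w (x', y) ∂ν ∂μ := lintegral_lintegral_swap (by fun_prop)
    _ = ∫⁻ x', cod ν w (x, x') * ∫⁻ y, w (x', y) ∂ν ∂μ :=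
        lintegral_congr fun x' => lintegral_const_mul _ (by fun_prop)
    _ = ∫⁻ x', cod ν w (x, x') * c ∂μ := lintegral_congr_ae (by
        filter_upwards [hx] with x' hx'; rw [hx'])
    _ = (∫⁻ x', ∫⁻ y, w (x, y) * w (x', y) ∂ν ∂μ) * c := lintegral_mul_const _ (by fun_prop)
    _ = (∫⁻ y, ∫⁻ x', w (x, y) * w (x', y) ∂μ ∂ν) * c := by
        rw [lintegral_lintegral_swap (by fun_prop)]
    _ = (∫⁻ y, w (x, y) * ∫⁻ x', w (x', y) ∂μ ∂ν) * c := by
        congr 1
        exact lintegral_congr fun y => lintegral_const_mul _ (by fun_prop)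
    _ = (∫⁻ y, w (x, y) * c ∂ν) * c := by
        congr 1
        exact lintegral_congr_ae (by filter_upwards [hy] with y hy; rw [hy])
    _ = c ^ 3 := by rw [lintegral_mul_const _ (by fun_prop), hx']; ring

lemma dumb_ge (hw : Measurable w) {c : ℝ≥0∞} (hx : ∀ᵐ x ∂μ, ∫⁻ y, w (x, y) ∂ν = c)
    (hy : ∀ᵐ y ∂ν, ∫⁻ x, w (x, y) ∂μ = c) :
    (∫⁻ x, alp μ ν w x ∂μ) * c ^ 7 ≤
      ∫⁻ x, alp μ ν w x * ∫⁻ y, ker3 μ ν w (x, y) * alp ν μ (swp w) y ∂ν ∂μ := by
  have hal := alp_meas μ ν hw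
  have hk := ker3_meas μ ν hw
  rw [← lintegral_mul_const _ hal]
  refine lintegral_mono_ae ?_
  filter_upwards [ker3_marg μ ν hw hx hy] with x hx3
  refine mul_le_mul_right ?_ _
  calc c ^ 7 = (∫⁻ y, ker3 μ ν w (x, y) ∂ν) * c ^ 4 := by rw [hx3]; ring
    _ = ∫⁻ y, ker3 μ ν w (x, y) * c ^ 4 ∂ν := (lintegral_mul_const _ (by fun_prop)).symm
    _ ≤ _ := by
      refine lintegral_mono_ae ?_
      filter_upwards [alp_ge μ ν hw hx hy] with y hy4
      exact mul_le_mul_right hy4 _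

end enn

section real
variable {A B X Y : Type} [Fintype A] [Fintype B]
  [MeasurableSpace X] [MeasurableSpace Y] (μ : Measure X) (ν : Measure Y)
  [IsProbabilityMeasure μ] [IsProbabilityMeasure ν]

/-- the density with values in the extended nonnegative reals -/
noncomputable def dL (F : Finset (A × B)) (w : X × Y → ℝ≥0∞) : ℝ≥0∞ :=
  ∫⁻ p, ∏ e ∈ F, w (p.1 e.1, p.2 e.2) ∂(PP A B μ ν)

/-- the extended version of a real kernel -/
noncomputable def ex (W : X × Y → ℝ) : X × Y → ℝ≥0∞ := fun z => ENNReal.ofReal (W z)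

lemma ex_meas {W : X × Y → ℝ} (hW : IsBigraphon W) : Measurable (ex W) :=
  ENNReal.measurable_ofReal.comp hW.measurable

lemma density_eq (G : Bigraph A B) {W : X × Y → ℝ} (hW : IsBigraphon W) :
    density G μ ν W = (dL μ ν G.edges (ex W)).toReal := by
  have hWm := hW.measurable
  unfold density dL
  rw [integral_eq_lintegral_of_nonneg_ae]
  · congr 1
    refine lintegral_congr fun p => ?_
    rw [ENNReal.ofReal_prod_of_nonneg fun e _ => hW.nonneg _]
    rfl
  · exact Filter.Eventually.of_forall fun p => Finset.prod_nonneg fun e _ => hW.nonneg _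
  · refine Measurable.aestronglyMeasurable ?_
    fun_prop

lemma dL_ne_top (F : Finset (A × B)) {W : X × Y → ℝ} (hW : IsBigraphon W) :
    dL μ ν F (ex W) ≠ ⊤ := by
  obtain ⟨M, hM⟩ := hW.bounded
  have : dL μ ν F (ex W) ≤ (ENNReal.ofReal M) ^ F.card := by
    unfold dL
    calc _ ≤ ∫⁻ _ : (A → X) × (B → Y), (ENNReal.ofReal M) ^ F.card ∂(PP A B μ ν) := by
          refine lintegral_mono fun p => ?_
          refine (Finset.prod_le_prod' (g := fun _ => ENNReal.ofReal M) fun e _ => ?_).trans ?_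
          · exact ENNReal.ofReal_le_ofReal (hM _)
          · simp
      _ = _ := by simp
  exact ne_top_of_le_ne_top (by finiteness) this

lemma dL_rho {w : X × Y → ℝ≥0∞} (hw : Measurable w) :
    dL μ ν rho.edges w = ∫⁻ x, ∫⁻ y, w (x, y) ∂ν ∂μ := by
  unfold dL
  have h1 : ∀ p : (Unit → X) × (Unit → Y),
      ∏ e ∈ rho.edges, w (p.1 e.1, p.2 e.2) = w (p.1 (), p.2 ()) := by
    intro p
    have : (rho.edges : Finset (Unit × Unit)) = {((), ())} := rfl
    rw [this, Finset.prod_singleton]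
  simp only [h1]
  have e1 := blockB (A := Unit) μ ν () (fun _ => 1) (fun q => w (q.1.1 (), q.2)) measurable_const
    (by fun_prop) (fun _ _ => rfl) (fun _ _ => rfl)
  have hm : Measurable fun x : X => ∫⁻ y, w (x, y) ∂ν :=
    Measurable.lintegral_prod_right' (f := fun q : X × Y => w (q.1, q.2)) (by fun_prop)
  have e2 := blockA (B := Unit) μ ν () (fun _ => 1) (fun q => ∫⁻ y, w (q.2, y) ∂ν)
    measurable_const (by fun_prop) (fun _ _ => rfl) (fun _ _ => rfl)
  simp only [one_mul] at e1 e2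
  rw [e1, e2, lint_const]

/-- biregularity for the extended kernel -/
lemma bireg {W : X × Y → ℝ} (hW : IsBigraphon W) (hb : IsBiregular μ ν W) :
    (∀ᵐ x ∂μ, ∫⁻ y, ex W (x, y) ∂ν = dL μ ν rho.edges (ex W)) ∧
    (∀ᵐ y ∂ν, ∫⁻ x, ex W (x, y) ∂μ = dL μ ν rho.edges (ex W)) := by
  have hWm := hW.measurable
  have hr := density_eq μ ν rho hW
  have hfin := dL_ne_top μ ν rho.edges hW
  obtain ⟨M, hM⟩ := hW.bounded
  constructor
  · filter_upwards [hb.1] with x hx
    rw [← ENNReal.ofReal_toReal hfin, ← hr, ← hx]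
    symm
    refine ofReal_integral_eq_lintegral_ofReal ?_ (Filter.Eventually.of_forall fun y =>
      hW.nonneg _)
    refine Integrable.of_bound (C := M)
      (hWm.comp measurable_prodMk_left).aestronglyMeasurable
      (Filter.Eventually.of_forall fun y => ?_)
    rw [Real.norm_of_nonneg (hW.nonneg _)]
    exact hM _
  · filter_upwards [hb.2] with x hx
    rw [← ENNReal.ofReal_toReal hfin, ← hr, ← hx]
    symm
    refine ofReal_integral_eq_lintegral_ofReal ?_ (Filter.Eventually.of_forall fun y =>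
      hW.nonneg _)
    refine Integrable.of_bound (C := M)
      (hWm.comp measurable_prodMk_right).aestronglyMeasurable
      (Filter.Eventually.of_forall fun y => ?_)
    rw [Real.norm_of_nonneg (hW.nonneg _)]
    exact hM _

end real

section induce
variable {A B : Type} [Fintype A] [Fintype B] [DecidableEq A] [DecidableEq B]

/-- edges inside a vertex set -/
def edgesIn (G : Bigraph A B) (U : Finset (A ⊕ B)) : Finset (A × B) :=
  G.edges.filter fun e => Sum.inl e.1 ∈ U ∧ Sum.inr e.2 ∈ U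

/-- the embedding of pairs -/
def emb (U : Finset (A ⊕ B)) :
    {a : A // Sum.inl a ∈ U} × {b : B // Sum.inr b ∈ U} ↪ A × B :=
  ⟨fun e => (e.1.1, e.2.1), fun e f h => by
    simp only [Prod.mk.injEq] at h
    exact Prod.ext (Subtype.ext h.1) (Subtype.ext h.2)⟩

lemma map_edges (G : Bigraph A B) (U : Finset (A ⊕ B)) :
    (G.induce U).edges.map (emb U) = edgesIn G U := by
  ext ⟨a, b⟩
  simp only [Finset.mem_map, Bigraph.induce, Finset.mem_filter, Finset.mem_univ, true_and,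
    edgesIn, emb, Embedding.coeFn_mk, Prod.mk.injEq]
  constructor
  · rintro ⟨⟨a', b'⟩, h, rfl, rfl⟩
    exact ⟨h, a'.2, b'.2⟩
  · rintro ⟨h, ha, hb⟩
    exact ⟨(⟨a, ha⟩, ⟨b, hb⟩), h, rfl, rfl⟩

lemma numEdges_induce (G : Bigraph A B) (U : Finset (A ⊕ B)) :
    (G.induce U).numEdges = (edgesIn G U).card := by
  rw [← map_edges, Finset.card_map]; rfl

variable {X Y : Type} [MeasurableSpace X] [MeasurableSpace Y] (μ : Measure X) (ν : Measure Y)
  [IsProbabilityMeasure μ] [IsProbabilityMeasure ν]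

lemma mp_restrict {A X : Type} [Fintype A] [MeasurableSpace X] (μ : Measure X)
    [IsProbabilityMeasure μ] (p : A → Prop) [DecidablePred p] :
    MeasurePreserving (fun (f : A → X) (a : {a // p a}) => f a.1)
      (Measure.pi fun _ : A => μ) (Measure.pi fun _ : {a // p a} => μ) := by
  have h := measurePreserving_piEquivPiSubtypeProd (fun _ : A => μ) p
  exact (measurePreserving_fst (μ := Measure.pi fun _ : {a // p a} => μ)
    (ν := Measure.pi fun _ : {a // ¬ p a} => μ)).comp h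

lemma dL_induce (G : Bigraph A B) (U : Finset (A ⊕ B)) {w : X × Y → ℝ≥0∞} (hw : Measurable w) :
    dL μ ν (G.induce U).edges w = dL μ ν (edgesIn G U) w := by
  unfold dL
  have h1 := mp_restrict (A := A) μ (fun a => Sum.inl a ∈ U)
  have h2 := mp_restrict (A := B) ν (fun b => Sum.inr b ∈ U)
  have h := h1.prod h2
  rw [← h.lintegral_comp]
  · refine lintegral_congr fun q => ?_
    rw [← map_edges, Finset.prod_map]
    rfl
  · fun_prop

lemma density_induce (G : Bigraph A B) (U : Finset (A ⊕ B)) {W : X × Y → ℝ}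
    (hW : IsBigraphon W) :
    density (G.induce U) μ ν W = (dL μ ν (edgesIn G U) (ex W)).toReal := by
  rw [density_eq μ ν _ hW, dL_induce μ ν G U (ex_meas hW)]

/-- The dumbbell dominates the four-cycle, in terms of edge sets. -/
lemma dom_real (G : Bigraph A B) (U S : Finset (A ⊕ B))
    (a0 a1 a2 a3 a4 : A) (b0 b1 b2 b3 b4 : B)
    (ha : [a0, a1, a2, a3, a4].Nodup) (hb : [b0, b1, b2, b3, b4].Nodup)
    (hU : edgesIn G U = [(a0, b2), (a1, b2), (a0, b3), (a1, b3),
      (a2, b0), (a2, b1), (a3, b0), (a3, b1), (a0, b4), (a4, b4), (a4, b0)].toFinset)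
    (a0' a1' : A) (b1' b2' : B) (ha' : a0' ≠ a1') (hb' : b1' ≠ b2')
    (hS : edgesIn G S = [(a0', b1'), (a1', b1'), (a0', b2'), (a1', b2')].toFinset) :
    WeaklyDominates (G.induce U) (G.induce S) := by
  intro X Y _ _ μ ν _ _ W hW hne hb2
  have hwm := ex_meas hW
  have hnd1 : [(a0, b2), (a1, b2), (a0, b3), (a1, b3),
      (a2, b0), (a2, b1), (a3, b0), (a3, b1), (a0, b4), (a4, b4), (a4, b0)].Nodup := by
    simp only [List.nodup_cons, List.mem_cons, not_or, List.not_mem_nil, not_false_eq_true,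
      List.nodup_nil, and_true] at ha hb
    obtain ⟨⟨h01, h02, h03, h04⟩, ⟨h12, h13, h14⟩, ⟨h23, h24⟩, h34⟩ := ha
    obtain ⟨⟨k01, k02, k03, k04⟩, ⟨k12, k13, k14⟩, ⟨k23, k24⟩, k34⟩ := hb
    simp only [List.nodup_cons, List.mem_cons, not_or, List.not_mem_nil, not_false_eq_true,
      List.nodup_nil, and_true, Prod.mk.injEq]
    simp [h01, h02, h03, h04, h12, h13, h14, h23, h24, h34, k01, k02, k03, k04, k12, k13, k14,
      k23, k24, k34, Ne.symm h01, Ne.symm h02, Ne.symm h03, Ne.symm h04, Ne.symm h12,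
      Ne.symm h13, Ne.symm h14, Ne.symm h23, Ne.symm h24, Ne.symm h34,
      Ne.symm k01, Ne.symm k02, Ne.symm k03, Ne.symm k04, Ne.symm k12,
      Ne.symm k13, Ne.symm k14, Ne.symm k23, Ne.symm k24, Ne.symm k34]
  have hnd2 : [(a0', b1'), (a1', b1'), (a0', b2'), (a1', b2')].Nodup := by
    simp [ha', hb', ha'.symm, hb'.symm]
  rw [numEdges_induce, numEdges_induce, density_induce μ ν G U hW, density_induce μ ν G S hW]
  rw [density_eq μ ν rho hW] at hne ⊢
  have hc1 : (edgesIn G U).card = 11 := by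
    rw [hU, List.toFinset_card_of_nodup hnd1]; rfl
  have hc2 : (edgesIn G S).card = 4 := by
    rw [hS, List.toFinset_card_of_nodup hnd2]; rfl
  have e1 : dL μ ν (edgesIn G U) (ex W) = ∫⁻ x, alp μ ν (ex W) x * ∫⁻ y, ker3 μ ν (ex W) (x, y) *
      alp ν μ (swp (ex W)) y ∂ν ∂μ := by
    rw [← dumb (A := A) (B := B) μ ν hwm a0 a1 a2 a3 a4 b0 b1 b2 b3 b4 ha hb]
    unfold dL
    refine lintegral_congr fun p => ?_
    rw [hU, List.prod_toFinset _ hnd1]
    simp only [List.map_cons, List.map_nil, List.prod_cons, List.prod_nil]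
    ring
  have e2 : dL μ ν (edgesIn G S) (ex W) = ∫⁻ x, alp μ ν (ex W) x ∂μ := by
    rw [← c4form (A := A) (B := B) μ ν hwm a0' a1' b1' b2' ha' hb']
    unfold dL
    refine lintegral_congr fun p => ?_
    rw [hS, List.prod_toFinset _ hnd2]
    simp only [List.map_cons, List.map_nil, List.prod_cons, List.prod_nil]
    ring
  have hbi := bireg μ ν hW hb2
  have key := dumb_ge μ ν hwm hbi.1 hbi.2
  rw [← e1, ← e2] at key
  have hf1 := dL_ne_top μ ν (edgesIn G U) hW
  have key2 := ENNReal.toReal_mono hf1 key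
  rw [ENNReal.toReal_mul, ENNReal.toReal_pow] at key2
  have hcpos : 0 < (dL μ ν rho.edges (ex W)).toReal := lt_of_le_of_ne ENNReal.toReal_nonneg
    (Ne.symm hne)
  rw [hc1, hc2, div_le_div_iff₀ (by positivity) (by positivity)]
  calc _ = ((dL μ ν (edgesIn G S) (ex W)).toReal * (dL μ ν rho.edges (ex W)).toReal ^ 7) *
        (dL μ ν rho.edges (ex W)).toReal ^ 4 := by ring
    _ ≤ _ := mul_le_mul_of_nonneg_right key2 (by positivity)

end induce

end Pool.Agent.R790.Rtd
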