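import Pool.Agent.R790.Rtd.Num2

/-!
The example is not weakly dominating.
-/

open MeasureTheory Function
open scoped ENNReal

namespace Pool.Agent.R790.Rtd

lemma real_rho : density rho mu mu W0 = 4 / 3 := by
  rw [density_eq mu mu rho W0_big, val_rho]
  simp only [ENNReal.toReal_mul, ENNReal.toReal_pow, ENNReal.toReal_inv, ENNReal.toReal_natCast,
    ENNReal.toReal_ofNat]
  norm_num

lemma real_G : density GG mu mu W0 = 53111989207040 / 3 ^ 22 := by
  rw [density_eq mu mu GG W0_big, val_G]
  simp only [ENNReal.toReal_mul, ENNReal.toReal_pow, ENNReal.toReal_inv, ENNReal.toReal_natCast,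
    ENNReal.toReal_ofNat]
  norm_num

lemma real_U : density (GG.induce UU) mu mu W0 = 1577984 * 1577984 / 3 ^ 20 := by
  rw [density_induce mu mu GG UU W0_big, val_U]
  simp only [ENNReal.toReal_mul, ENNReal.toReal_pow, ENNReal.toReal_inv, ENNReal.toReal_natCast,
    ENNReal.toReal_ofNat]
  norm_num

lemma int_N (f : Fin 3 → ℕ) : ∫ y, (f y : ℝ) ∂mu = (∑ y, f y : ℕ) / 3 := by
  rw [integral_eq_lintegral_of_nonneg_ae (Filter.Eventually.of_forall fun y => Nat.cast_nonneg _)
    (Measurable.of_discrete).aestronglyMeasurable]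
  simp only [ENNReal.ofReal_natCast]
  rw [lmu]
  rw [← Nat.cast_sum]
  simp only [ENNReal.toReal_mul, ENNReal.toReal_inv, ENNReal.toReal_natCast,
    ENNReal.toReal_ofNat]
  ring

lemma W0_bireg : IsBiregular mu mu W0 := by
  unfold IsBiregular
  rw [real_rho]
  constructor
  · refine Filter.Eventually.of_forall fun x => ?_
    have := int_N (fun y => MM x y)
    simp only [W0]
    rw [this]
    have h : ∀ x, (∑ y, MM x y) = 4 := by decide +kernel
    rw [h]; norm_num
  · refine Filter.Eventually.of_forall fun y => ?_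
    have := int_N (fun x => MM x y)
    simp only [W0]
    rw [this]
    have h : ∀ y, (∑ x, MM x y) = 4 := by decide +kernel
    rw [h]; norm_num

lemma num_G : GG.numEdges = 25 := by decide +kernel

lemma num_U : (GG.induce UU).numEdges = 22 := by
  rw [numEdges_induce]; decide +kernel

lemma not_dom : ¬ WeaklyDominates GG (GG.induce UU) := by
  intro h
  have := h (Fin 3) (Fin 3) mu mu W0 W0_big (by rw [real_rho]; norm_num) W0_bireg
  rw [real_rho, real_G, real_U, num_G, num_U] at this
  norm_num at this

theorem main : ¬ Assertion := by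
  intro h
  have h2 := h (Fin 11) (Fin 11) GG conn ⟨(0, 4), by decide +kernel⟩ (Fin 3) DD hyp {0, 2}
    ⟨0, by decide⟩
  rw [union_eq] at h2
  exact not_dom h2

end Pool.Agent.R790.Rtd
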