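import Mathlib

/-!
Integrating out coordinates of a product of two finite powers of probability spaces.
-/

open MeasureTheory Function
open scoped ENNReal

namespace Pool.Agent.R790.Rtd

section one
variable {A X : Type} [Fintype A] [DecidableEq A] [MeasurableSpace X] (μ : Measure X)
  [IsProbabilityMeasure μ]

lemma mp_update (a : A) :
    MeasurePreserving (fun q : (A → X) × X => update q.1 a q.2)
      ((Measure.pi fun _ : A => μ).prod μ) (Measure.pi fun _ : A => μ) := by
  have hm : Measurable (fun q : (A → X) × X => update q.1 a q.2) := by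
    refine measurable_pi_lambda _ fun i => ?_
    by_cases h : i = a
    · subst h; simp only [update_self]; exact measurable_snd
    · simp only [update_of_ne h]; exact (measurable_pi_apply i).comp measurable_fst
  refine ⟨hm, ?_⟩
  symm
  refine Measure.pi_eq fun s hs => ?_
  rw [Measure.map_apply hm (MeasurableSet.univ_pi hs)]
  have hpre : (fun q : (A → X) × X => update q.1 a q.2) ⁻¹' (Set.univ.pi s) =
      (Set.univ.pi (update s a Set.univ)) ×ˢ (s a) := by
    ext ⟨p, x⟩
    simp only [Set.mem_preimage, Set.mem_univ_pi, Set.mem_prod]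
    constructor
    · intro h
      refine ⟨fun i => ?_, by simpa using h a⟩
      by_cases hi : i = a
      · subst hi; simp
      · have := h i
        rw [update_of_ne hi] at this ⊢
        exact this
    · rintro ⟨h, hx⟩ i
      by_cases hi : i = a
      · subst hi; simpa using hx
      · have := h i
        rw [update_of_ne hi] at this ⊢
        exact this
  rw [hpre, Measure.prod_prod, Measure.pi_pi]
  rw [← Finset.mul_prod_erase Finset.univ (fun i => μ (s i)) (Finset.mem_univ a)]
  rw [← Finset.mul_prod_erase Finset.univ (fun i => μ (update s a Set.univ i))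
    (Finset.mem_univ a)]
  simp only [update_self, measure_univ, one_mul]
  rw [mul_comm]
  congr 1
  refine Finset.prod_congr rfl fun i hi => ?_
  rw [update_of_ne (Finset.ne_of_mem_erase hi)]

lemma elim_one (a : A) (f : (A → X) → ℝ≥0∞) (hf : Measurable f) :
    ∫⁻ p, f p ∂(Measure.pi fun _ : A => μ) =
      ∫⁻ p, ∫⁻ x, f (update p a x) ∂μ ∂(Measure.pi fun _ : A => μ) := by
  have h := (mp_update μ a).lintegral_comp hf
  rw [← h, lintegral_prod]
  exact (hf.comp (mp_update μ a).measurable).aemeasurable

end one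

section two
variable {A B X Y : Type} [Fintype A] [DecidableEq A] [Fintype B] [DecidableEq B]
  [MeasurableSpace X] [MeasurableSpace Y] (μ : Measure X) (ν : Measure Y)
  [IsProbabilityMeasure μ] [IsProbabilityMeasure ν]

/-- the product measure -/
noncomputable abbrev PP (A B : Type) {X Y : Type} [Fintype A] [Fintype B]
    [MeasurableSpace X] [MeasurableSpace Y] (μ : Measure X) (ν : Measure Y) :
    Measure ((A → X) × (B → Y)) :=
  (Measure.pi fun _ : A => μ).prod (Measure.pi fun _ : B => ν)

lemma meas_updA (a : A) : Measurable (fun q : ((A → X) × (B → Y)) × X =>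
    ((update q.1.1 a q.2, q.1.2) : (A → X) × (B → Y))) := by
  refine Measurable.prodMk ?_ (measurable_snd.comp measurable_fst)
  refine measurable_pi_lambda _ fun i => ?_
  by_cases h : i = a
  · subst h; simp only [update_self]; exact measurable_snd
  · simp only [update_of_ne h]
    exact (measurable_pi_apply i).comp (measurable_fst.comp measurable_fst)

lemma meas_updB (b : B) : Measurable (fun q : ((A → X) × (B → Y)) × Y =>
    ((q.1.1, update q.1.2 b q.2) : (A → X) × (B → Y))) := by
  refine Measurable.prodMk (measurable_fst.comp measurable_fst) ?_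
  refine measurable_pi_lambda _ fun i => ?_
  by_cases h : i = b
  · subst h; simp only [update_self]; exact measurable_snd
  · simp only [update_of_ne h]
    exact (measurable_pi_apply i).comp (measurable_snd.comp measurable_fst)

lemma elimA (a : A) (f : (A → X) × (B → Y) → ℝ≥0∞) (hf : Measurable f) :
    ∫⁻ p, f p ∂(PP A B μ ν) = ∫⁻ p, ∫⁻ x, f (update p.1 a x, p.2) ∂μ ∂(PP A B μ ν) := by
  rw [lintegral_prod_symm _ hf.aemeasurable, lintegral_prod_symm]
  · refine lintegral_congr fun q => ?_
    exact elim_one μ a (fun p => f (p, q)) (hf.comp measurable_prodMk_right)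
  · refine Measurable.aemeasurable ?_
    exact Measurable.lintegral_prod_right' (hf.comp (meas_updA a))

lemma elimB (b : B) (f : (A → X) × (B → Y) → ℝ≥0∞) (hf : Measurable f) :
    ∫⁻ p, f p ∂(PP A B μ ν) = ∫⁻ p, ∫⁻ y, f (p.1, update p.2 b y) ∂ν ∂(PP A B μ ν) := by
  rw [lintegral_prod _ hf.aemeasurable, lintegral_prod]
  · refine lintegral_congr fun q => ?_
    exact elim_one ν b (fun p => f (q, p)) (hf.comp measurable_prodMk_left)
  · refine Measurable.aemeasurable ?_
    exact Measurable.lintegral_prod_right' (hf.comp (meas_updB b))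

/-- integrate out one first coordinate from a factor -/
lemma blockA (a : A) (Φ : (A → X) × (B → Y) → ℝ≥0∞) (g : ((A → X) × (B → Y)) × X → ℝ≥0∞)
    (hΦ : Measurable Φ) (hg : Measurable g)
    (hi : ∀ p x, Φ (update p.1 a x, p.2) = Φ p)
    (hgi : ∀ p x, g ((update p.1 a x, p.2), x) = g (p, x)) :
    ∫⁻ p, Φ p * g (p, p.1 a) ∂(PP A B μ ν) =
      ∫⁻ p, Φ p * ∫⁻ x, g (p, x) ∂μ ∂(PP A B μ ν) := by
  have hm : Measurable fun p : (A → X) × (B → Y) => Φ p * g (p, p.1 a) := by fun_prop
  rw [elimA μ ν a _ hm]
  refine lintegral_congr fun p => ?_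
  simp only [update_self, hi, hgi]
  exact lintegral_const_mul _ (hg.comp measurable_prodMk_left)

lemma blockB (b : B) (Φ : (A → X) × (B → Y) → ℝ≥0∞) (g : ((A → X) × (B → Y)) × Y → ℝ≥0∞)
    (hΦ : Measurable Φ) (hg : Measurable g)
    (hi : ∀ p y, Φ (p.1, update p.2 b y) = Φ p)
    (hgi : ∀ p y, g ((p.1, update p.2 b y), y) = g (p, y)) :
    ∫⁻ p, Φ p * g (p, p.2 b) ∂(PP A B μ ν) =
      ∫⁻ p, Φ p * ∫⁻ y, g (p, y) ∂ν ∂(PP A B μ ν) := by
  have hm : Measurable fun p : (A → X) × (B → Y) => Φ p * g (p, p.2 b) := by fun_prop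
  rw [elimB μ ν b _ hm]
  refine lintegral_congr fun p => ?_
  simp only [update_self, hi, hgi]
  exact lintegral_const_mul _ (hg.comp measurable_prodMk_left)

end two

section ker
variable {X Y : Type} [MeasurableSpace X] [MeasurableSpace Y] (μ : Measure X) (ν : Measure Y)
  [IsProbabilityMeasure μ] [IsProbabilityMeasure ν] (w : X × Y → ℝ≥0∞)

/-- codegree of two first-side points -/
noncomputable def cod (z : X × X) : ℝ≥0∞ := ∫⁻ y, w (z.1, y) * w (z.2, y) ∂ν

/-- density of four-cycles rooted at a first-side point -/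
noncomputable def alp (x : X) : ℝ≥0∞ := ∫⁻ x', cod ν w (x, x') * cod ν w (x, x') ∂μ

/-- two-step kernel -/
noncomputable def ker2 (z : X × X) : ℝ≥0∞ := ∫⁻ y, w (z.1, y) * w (z.2, y) ∂ν

/-- three-step kernel -/
noncomputable def ker3 (z : X × Y) : ℝ≥0∞ := ∫⁻ x', cod ν w (z.1, x') * w (x', z.2) ∂μ

variable {w}

lemma cod_meas (hw : Measurable w) : Measurable (cod ν w) := by
  unfold cod
  refine Measurable.lintegral_prod_right' (f := fun q : (X × X) × Y =>
    w (q.1.1, q.2) * w (q.1.2, q.2)) ?_
  fun_prop

lemma alp_meas (hw : Measurable w) : Measurable (alp μ ν w) := by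
  have h := cod_meas ν hw
  unfold alp
  refine Measurable.lintegral_prod_right' (f := fun q : X × X =>
    cod ν w (q.1, q.2) * cod ν w (q.1, q.2)) ?_
  fun_prop

lemma ker3_meas (hw : Measurable w) : Measurable (ker3 μ ν w) := by
  have h := cod_meas ν hw
  unfold ker3
  refine Measurable.lintegral_prod_right' (f := fun q : (X × Y) × X =>
    cod ν w (q.1.1, q.2) * w (q.2, q.1.2)) ?_
  fun_prop

end ker

end Pool.Agent.R790.Rtd
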