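import Pool.Agent.R790.Rtd.Comb

/-!
The densities of the example and of the union of its outer bags in an explicit bigraphon.
-/

open MeasureTheory Function
open scoped ENNReal

namespace Pool.Agent.R790.Rtd

section form
variable {X Y : Type}
  [MeasurableSpace X] [MeasurableSpace Y] (μ : Measure X) (ν : Measure Y)
  [IsProbabilityMeasure μ] [IsProbabilityMeasure ν] {w : X × Y → ℝ≥0∞}

/-- rooted density of a four-cycle attached by a path of three edges, first side -/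
noncomputable def kap (w : X × Y → ℝ≥0∞) (x : X) : ℝ≥0∞ :=
  ∫⁻ y, ker3 μ ν w (x, y) * alp ν μ (swp w) y ∂ν

/-- rooted density of a four-cycle attached by a path of three edges, second side -/
noncomputable def kap' (w : X × Y → ℝ≥0∞) (y : Y) : ℝ≥0∞ :=
  ∫⁻ x, alp μ ν w x * ker3 μ ν w (x, y) ∂μ

lemma kap_meas (hw : Measurable w) : Measurable (kap μ ν w) := by
  have hbe := alp_meas ν μ (swp_meas hw)
  have hk := ker3_meas μ ν hw
  exact Measurable.lintegral_prod_right' (f := fun q : X × Y => ker3 μ ν w (q.1, q.2) *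
      alp ν μ (swp w) q.2) (by fun_prop)

lemma kap'_meas (hw : Measurable w) : Measurable (kap' μ ν w) := by
  have hal := alp_meas μ ν hw
  have hk := ker3_meas μ ν hw
  exact Measurable.lintegral_prod_right' (f := fun q : Y × X => alp μ ν w q.2 *
      ker3 μ ν w (q.2, q.1)) (by fun_prop)

lemma gform (hw : Measurable w) :
    dL μ ν GG.edges w = ∫⁻ x, alp μ ν w x * kap μ ν w x *
      ∫⁻ y, ker3 μ ν w (x, y) * alp ν μ (swp w) y * kap' μ ν w y ∂ν ∂μ := by
  have hal := alp_meas μ ν hw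
  have hbe := alp_meas ν μ (swp_meas hw)
  have hk := ker3_meas μ ν hw
  have hka := kap_meas μ ν hw
  have hkb := kap'_meas μ ν hw
  have e1 := pathAB (A := Fin 11) (B := Fin 11) μ ν hw 0 8 0 8 (by decide) (by decide)
    (fun p : (Fin 11 → X) × (Fin 11 → Y) =>
      (w (p.1 0, p.2 4) * w (p.1 2, p.2 4) * (w (p.1 0, p.2 5) * w (p.1 2, p.2 5))) *
      (w (p.1 1, p.2 6) * w (p.1 3, p.2 6) * (w (p.1 1, p.2 7) * w (p.1 3, p.2 7))) *
      (w (p.1 4, p.2 0) * w (p.1 4, p.2 2) * (w (p.1 5, p.2 0) * w (p.1 5, p.2 2))) *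
      (w (p.1 6, p.2 1) * w (p.1 6, p.2 3) * (w (p.1 7, p.2 1) * w (p.1 7, p.2 3))) *
      (w (p.1 0, p.2 9) * w (p.1 9, p.2 9) * w (p.1 9, p.2 1)) *
      (w (p.1 1, p.2 10) * w (p.1 10, p.2 10) * w (p.1 10, p.2 0)))
    (by fun_prop) (fun p x => by simp [Function.update_apply])
    (fun p x => by simp [Function.update_apply])
  have e2 := pathAB (A := Fin 11) (B := Fin 11) μ ν hw 0 9 1 9 (by decide) (by decide)
    (fun p : (Fin 11 → X) × (Fin 11 → Y) =>
      (w (p.1 0, p.2 4) * w (p.1 2, p.2 4) * (w (p.1 0, p.2 5) * w (p.1 2, p.2 5))) *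
      (w (p.1 1, p.2 6) * w (p.1 3, p.2 6) * (w (p.1 1, p.2 7) * w (p.1 3, p.2 7))) *
      (w (p.1 4, p.2 0) * w (p.1 4, p.2 2) * (w (p.1 5, p.2 0) * w (p.1 5, p.2 2))) *
      (w (p.1 6, p.2 1) * w (p.1 6, p.2 3) * (w (p.1 7, p.2 1) * w (p.1 7, p.2 3))) *
      (w (p.1 1, p.2 10) * w (p.1 10, p.2 10) * w (p.1 10, p.2 0)) *
      ker3 μ ν w (p.1 0, p.2 0))
    (by fun_prop) (fun p x => by simp [Function.update_apply])
    (fun p x => by simp [Function.update_apply])
  have e3 := pathAB (A := Fin 11) (B := Fin 11) μ ν hw 1 10 0 10 (by decide) (by decide)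
    (fun p : (Fin 11 → X) × (Fin 11 → Y) =>
      (w (p.1 0, p.2 4) * w (p.1 2, p.2 4) * (w (p.1 0, p.2 5) * w (p.1 2, p.2 5))) *
      (w (p.1 1, p.2 6) * w (p.1 3, p.2 6) * (w (p.1 1, p.2 7) * w (p.1 3, p.2 7))) *
      (w (p.1 4, p.2 0) * w (p.1 4, p.2 2) * (w (p.1 5, p.2 0) * w (p.1 5, p.2 2))) *
      (w (p.1 6, p.2 1) * w (p.1 6, p.2 3) * (w (p.1 7, p.2 1) * w (p.1 7, p.2 3))) *
      (ker3 μ ν w (p.1 0, p.2 0) * ker3 μ ν w (p.1 0, p.2 1)))
    (by fun_prop) (fun p x => by simp [Function.update_apply])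
    (fun p x => by simp [Function.update_apply])
  have e4 := c4A (A := Fin 11) (B := Fin 11) μ ν hw 0 2 4 5 (by decide) (by decide)
    (fun p : (Fin 11 → X) × (Fin 11 → Y) =>
      (w (p.1 1, p.2 6) * w (p.1 3, p.2 6) * (w (p.1 1, p.2 7) * w (p.1 3, p.2 7))) *
      (w (p.1 4, p.2 0) * w (p.1 4, p.2 2) * (w (p.1 5, p.2 0) * w (p.1 5, p.2 2))) *
      (w (p.1 6, p.2 1) * w (p.1 6, p.2 3) * (w (p.1 7, p.2 1) * w (p.1 7, p.2 3))) *
      (ker3 μ ν w (p.1 0, p.2 0) * ker3 μ ν w (p.1 0, p.2 1) * ker3 μ ν w (p.1 1, p.2 0)))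
    (by fun_prop) (fun p x => by simp [Function.update_apply])
    (fun p x => by simp [Function.update_apply]) (fun p x => by simp [Function.update_apply])
  have e5 := c4A (A := Fin 11) (B := Fin 11) μ ν hw 1 3 6 7 (by decide) (by decide)
    (fun p : (Fin 11 → X) × (Fin 11 → Y) =>
      (w (p.1 4, p.2 0) * w (p.1 4, p.2 2) * (w (p.1 5, p.2 0) * w (p.1 5, p.2 2))) *
      (w (p.1 6, p.2 1) * w (p.1 6, p.2 3) * (w (p.1 7, p.2 1) * w (p.1 7, p.2 3))) *
      (ker3 μ ν w (p.1 0, p.2 0) * ker3 μ ν w (p.1 0, p.2 1) * ker3 μ ν w (p.1 1, p.2 0)) *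
      alp μ ν w (p.1 0))
    (by fun_prop) (fun p x => by simp [Function.update_apply])
    (fun p x => by simp [Function.update_apply]) (fun p x => by simp [Function.update_apply])
  have e6 := c4B (A := Fin 11) (B := Fin 11) μ ν hw 0 2 4 5 (by decide) (by decide)
    (fun p : (Fin 11 → X) × (Fin 11 → Y) =>
      (w (p.1 6, p.2 1) * w (p.1 6, p.2 3) * (w (p.1 7, p.2 1) * w (p.1 7, p.2 3))) *
      (ker3 μ ν w (p.1 0, p.2 0) * ker3 μ ν w (p.1 0, p.2 1) * ker3 μ ν w (p.1 1, p.2 0)) *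
      (alp μ ν w (p.1 0) * alp μ ν w (p.1 1)))
    (by fun_prop) (fun p x => by simp [Function.update_apply])
    (fun p x => by simp [Function.update_apply]) (fun p x => by simp [Function.update_apply])
  have e7 := c4B (A := Fin 11) (B := Fin 11) μ ν hw 1 3 6 7 (by decide) (by decide)
    (fun p : (Fin 11 → X) × (Fin 11 → Y) =>
      (ker3 μ ν w (p.1 0, p.2 0) * ker3 μ ν w (p.1 0, p.2 1) * ker3 μ ν w (p.1 1, p.2 0)) *
      (alp μ ν w (p.1 0) * alp μ ν w (p.1 1) * alp ν μ (swp w) (p.2 0)))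
    (by fun_prop) (fun p x => by simp [Function.update_apply])
    (fun p x => by simp [Function.update_apply]) (fun p x => by simp [Function.update_apply])
  have e8 := blockB (A := Fin 11) (B := Fin 11) μ ν 1
    (fun p : (Fin 11 → X) × (Fin 11 → Y) =>
      (ker3 μ ν w (p.1 0, p.2 0) * ker3 μ ν w (p.1 1, p.2 0)) *
      (alp μ ν w (p.1 0) * alp μ ν w (p.1 1) * alp ν μ (swp w) (p.2 0)))
    (fun q => ker3 μ ν w (q.1.1 0, q.2) * alp ν μ (swp w) q.2)
    (by fun_prop) (by fun_prop) (fun p x => by simp [Function.update_apply])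
    (fun p x => by simp [Function.update_apply])
  have e9 := blockA (A := Fin 11) (B := Fin 11) μ ν 1
    (fun p : (Fin 11 → X) × (Fin 11 → Y) =>
      (ker3 μ ν w (p.1 0, p.2 0)) * kap μ ν w (p.1 0) *
      (alp μ ν w (p.1 0) * alp ν μ (swp w) (p.2 0)))
    (fun q => alp μ ν w q.2 * ker3 μ ν w (q.2, q.1.2 0))
    (by fun_prop) (by fun_prop) (fun p x => by simp [Function.update_apply])
    (fun p x => by simp [Function.update_apply])
  have e10 := blockB (A := Fin 11) (B := Fin 11) μ ν 0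
    (fun p : (Fin 11 → X) × (Fin 11 → Y) => alp μ ν w (p.1 0) * kap μ ν w (p.1 0))
    (fun q => ker3 μ ν w (q.1.1 0, q.2) * alp ν μ (swp w) q.2 * kap' μ ν w q.2)
    (by fun_prop) (by fun_prop) (fun p x => by simp [Function.update_apply])
    (fun p x => by simp [Function.update_apply])
  have hm : Measurable fun x : X => ∫⁻ y, ker3 μ ν w (x, y) * alp ν μ (swp w) y *
      kap' μ ν w y ∂ν :=
    Measurable.lintegral_prod_right' (f := fun q : X × Y => ker3 μ ν w (q.1, q.2) *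
      alp ν μ (swp w) q.2 * kap' μ ν w q.2) (by fun_prop)
  have e11 := blockA (A := Fin 11) (B := Fin 11) μ ν 0 (fun _ => 1)
    (fun q => alp μ ν w q.2 * kap μ ν w q.2 * ∫⁻ y, ker3 μ ν w (q.2, y) *
      alp ν μ (swp w) y * kap' μ ν w y ∂ν) measurable_const (by fun_prop) (fun _ _ => rfl)
      (fun _ _ => rfl)
  simp only [one_mul] at e11
  have hnd : gList.Nodup := by decide
  unfold dL
  have e0 : ∀ p : (Fin 11 → X) × (Fin 11 → Y), ∏ e ∈ GG.edges, w (p.1 e.1, p.2 e.2) =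
      (w (p.1 0, p.2 4) * w (p.1 2, p.2 4) * (w (p.1 0, p.2 5) * w (p.1 2, p.2 5))) *
      (w (p.1 1, p.2 6) * w (p.1 3, p.2 6) * (w (p.1 1, p.2 7) * w (p.1 3, p.2 7))) *
      (w (p.1 4, p.2 0) * w (p.1 4, p.2 2) * (w (p.1 5, p.2 0) * w (p.1 5, p.2 2))) *
      (w (p.1 6, p.2 1) * w (p.1 6, p.2 3) * (w (p.1 7, p.2 1) * w (p.1 7, p.2 3))) *
      (w (p.1 0, p.2 9) * w (p.1 9, p.2 9) * w (p.1 9, p.2 1)) *
      (w (p.1 1, p.2 10) * w (p.1 10, p.2 10) * w (p.1 10, p.2 0)) *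
      (w (p.1 0, p.2 8) * w (p.1 8, p.2 8) * w (p.1 8, p.2 0)) := by
    intro p
    have : GG.edges = gList.toFinset := rfl
    rw [this, List.prod_toFinset _ hnd]
    simp only [gList, List.map_cons, List.map_nil, List.prod_cons, List.prod_nil]
    ring
  rw [lintegral_congr e0, e1]
  rw [← lint_const (A := Fin 11) (B := Fin 11) μ ν (∫⁻ x, _ ∂μ), ← e11]
  refine Eq.trans (lintegral_congr fun p => ?_) (e2.trans ?_)
  · ring
  refine Eq.trans (lintegral_congr fun p => ?_) (e3.trans ?_)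
  · ring
  refine Eq.trans (lintegral_congr fun p => ?_) (e4.trans ?_)
  · ring
  refine Eq.trans (lintegral_congr fun p => ?_) (e5.trans ?_)
  · ring
  refine Eq.trans (lintegral_congr fun p => ?_) (e6.trans ?_)
  · ring
  refine Eq.trans (lintegral_congr fun p => ?_) (e7.trans ?_)
  · ring
  refine Eq.trans (lintegral_congr fun p => ?_) (e8.trans ?_)
  · ring
  refine Eq.trans (lintegral_congr fun p => ?_) (e9.trans ?_)
  · simp only [kap]; ring
  refine Eq.trans (lintegral_congr fun p => ?_) (e10.trans ?_)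
  · simp only [kap']; ring
  rfl

end form

end Pool.Agent.R790.Rtd
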