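import Pool.Agent.R790.Rtd.Num

/-!
The density of the union of the outer bags, and the explicit bigraphon.
-/

open MeasureTheory Function
open scoped ENNReal

namespace Pool.Agent.R790.Rtd

section form
variable {X Y : Type}
  [MeasurableSpace X] [MeasurableSpace Y] (μ : Measure X) (ν : Measure Y)
  [IsProbabilityMeasure μ] [IsProbabilityMeasure ν] {w : X × Y → ℝ≥0∞}

lemma uform (hw : Measurable w) :
    dL μ ν (edgesIn GG UU) w = (∫⁻ x, alp μ ν w x * kap μ ν w x ∂μ) *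
      ∫⁻ x, alp μ ν w x * kap μ ν w x ∂μ := by
  have hal := alp_meas μ ν hw
  have hbe := alp_meas ν μ (swp_meas hw)
  have hk := ker3_meas μ ν hw
  have hka := kap_meas μ ν hw
  have e2 := pathAB (A := Fin 11) (B := Fin 11) μ ν hw 0 9 1 9 (by decide) (by decide)
    (fun p : (Fin 11 → X) × (Fin 11 → Y) =>
      (w (p.1 0, p.2 4) * w (p.1 2, p.2 4) * (w (p.1 0, p.2 5) * w (p.1 2, p.2 5))) *
      (w (p.1 1, p.2 6) * w (p.1 3, p.2 6) * (w (p.1 1, p.2 7) * w (p.1 3, p.2 7))) *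
      (w (p.1 4, p.2 0) * w (p.1 4, p.2 2) * (w (p.1 5, p.2 0) * w (p.1 5, p.2 2))) *
      (w (p.1 6, p.2 1) * w (p.1 6, p.2 3) * (w (p.1 7, p.2 1) * w (p.1 7, p.2 3))) *
      (w (p.1 1, p.2 10) * w (p.1 10, p.2 10) * w (p.1 10, p.2 0)))
    (by fun_prop) (fun p x => by simp [Function.update_apply])
    (fun p x => by simp [Function.update_apply])
  have e3 := pathAB (A := Fin 11) (B := Fin 11) μ ν hw 1 10 0 10 (by decide) (by decide)
    (fun p : (Fin 11 → X) × (Fin 11 → Y) =>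
      (w (p.1 0, p.2 4) * w (p.1 2, p.2 4) * (w (p.1 0, p.2 5) * w (p.1 2, p.2 5))) *
      (w (p.1 1, p.2 6) * w (p.1 3, p.2 6) * (w (p.1 1, p.2 7) * w (p.1 3, p.2 7))) *
      (w (p.1 4, p.2 0) * w (p.1 4, p.2 2) * (w (p.1 5, p.2 0) * w (p.1 5, p.2 2))) *
      (w (p.1 6, p.2 1) * w (p.1 6, p.2 3) * (w (p.1 7, p.2 1) * w (p.1 7, p.2 3))) *
      ker3 μ ν w (p.1 0, p.2 1))
    (by fun_prop) (fun p x => by simp [Function.update_apply])
    (fun p x => by simp [Function.update_apply])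
  have e4 := c4A (A := Fin 11) (B := Fin 11) μ ν hw 0 2 4 5 (by decide) (by decide)
    (fun p : (Fin 11 → X) × (Fin 11 → Y) =>
      (w (p.1 1, p.2 6) * w (p.1 3, p.2 6) * (w (p.1 1, p.2 7) * w (p.1 3, p.2 7))) *
      (w (p.1 4, p.2 0) * w (p.1 4, p.2 2) * (w (p.1 5, p.2 0) * w (p.1 5, p.2 2))) *
      (w (p.1 6, p.2 1) * w (p.1 6, p.2 3) * (w (p.1 7, p.2 1) * w (p.1 7, p.2 3))) *
      (ker3 μ ν w (p.1 0, p.2 1) * ker3 μ ν w (p.1 1, p.2 0)))
    (by fun_prop) (fun p x => by simp [Function.update_apply])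
    (fun p x => by simp [Function.update_apply]) (fun p x => by simp [Function.update_apply])
  have e5 := c4A (A := Fin 11) (B := Fin 11) μ ν hw 1 3 6 7 (by decide) (by decide)
    (fun p : (Fin 11 → X) × (Fin 11 → Y) =>
      (w (p.1 4, p.2 0) * w (p.1 4, p.2 2) * (w (p.1 5, p.2 0) * w (p.1 5, p.2 2))) *
      (w (p.1 6, p.2 1) * w (p.1 6, p.2 3) * (w (p.1 7, p.2 1) * w (p.1 7, p.2 3))) *
      (ker3 μ ν w (p.1 0, p.2 1) * ker3 μ ν w (p.1 1, p.2 0)) *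
      alp μ ν w (p.1 0))
    (by fun_prop) (fun p x => by simp [Function.update_apply])
    (fun p x => by simp [Function.update_apply]) (fun p x => by simp [Function.update_apply])
  have e6 := c4B (A := Fin 11) (B := Fin 11) μ ν hw 0 2 4 5 (by decide) (by decide)
    (fun p : (Fin 11 → X) × (Fin 11 → Y) =>
      (w (p.1 6, p.2 1) * w (p.1 6, p.2 3) * (w (p.1 7, p.2 1) * w (p.1 7, p.2 3))) *
      (ker3 μ ν w (p.1 0, p.2 1) * ker3 μ ν w (p.1 1, p.2 0)) *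
      (alp μ ν w (p.1 0) * alp μ ν w (p.1 1)))
    (by fun_prop) (fun p x => by simp [Function.update_apply])
    (fun p x => by simp [Function.update_apply]) (fun p x => by simp [Function.update_apply])
  have e7 := c4B (A := Fin 11) (B := Fin 11) μ ν hw 1 3 6 7 (by decide) (by decide)
    (fun p : (Fin 11 → X) × (Fin 11 → Y) =>
      (ker3 μ ν w (p.1 0, p.2 1) * ker3 μ ν w (p.1 1, p.2 0)) *
      (alp μ ν w (p.1 0) * alp μ ν w (p.1 1) * alp ν μ (swp w) (p.2 0)))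
    (by fun_prop) (fun p x => by simp [Function.update_apply])
    (fun p x => by simp [Function.update_apply]) (fun p x => by simp [Function.update_apply])
  have e8 := blockB (A := Fin 11) (B := Fin 11) μ ν 1
    (fun p : (Fin 11 → X) × (Fin 11 → Y) =>
      (ker3 μ ν w (p.1 1, p.2 0)) *
      (alp μ ν w (p.1 0) * alp μ ν w (p.1 1) * alp ν μ (swp w) (p.2 0)))
    (fun q => ker3 μ ν w (q.1.1 0, q.2) * alp ν μ (swp w) q.2)
    (by fun_prop) (by fun_prop) (fun p x => by simp [Function.update_apply])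
    (fun p x => by simp [Function.update_apply])
  have e9 := blockB (A := Fin 11) (B := Fin 11) μ ν 0
    (fun p : (Fin 11 → X) × (Fin 11 → Y) =>
      (alp μ ν w (p.1 0) * kap μ ν w (p.1 0) * alp μ ν w (p.1 1)))
    (fun q => ker3 μ ν w (q.1.1 1, q.2) * alp ν μ (swp w) q.2)
    (by fun_prop) (by fun_prop) (fun p x => by simp [Function.update_apply])
    (fun p x => by simp [Function.update_apply])
  have e10 := blockA (A := Fin 11) (B := Fin 11) μ ν 0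
    (fun p : (Fin 11 → X) × (Fin 11 → Y) => alp μ ν w (p.1 1) * kap μ ν w (p.1 1))
    (fun q => alp μ ν w q.2 * kap μ ν w q.2)
    (by fun_prop) (by fun_prop) (fun p x => by simp [Function.update_apply])
    (fun p x => by simp)
  have e11 := blockA (A := Fin 11) (B := Fin 11) μ ν 1
    (fun _ => ∫⁻ x, alp μ ν w x * kap μ ν w x ∂μ)
    (fun q => alp μ ν w q.2 * kap μ ν w q.2) measurable_const (by fun_prop) (fun _ _ => rfl)
      (fun _ _ => rfl)
  have hnd : [((0 : Fin 11), (4 : Fin 11)), (2, 4), (0, 5), (2, 5), (6, 1), (6, 3), (7, 1), (7, 3),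
    (0, 9), (9, 9), (9, 1), (1, 6), (3, 6), (1, 7), (3, 7), (4, 0), (4, 2), (5, 0), (5, 2),
    (1, 10), (10, 10), (10, 0)].Nodup := by decide
  unfold dL
  have e0 : ∀ p : (Fin 11 → X) × (Fin 11 → Y), ∏ e ∈ edgesIn GG UU, w (p.1 e.1, p.2 e.2) =
      (w (p.1 0, p.2 4) * w (p.1 2, p.2 4) * (w (p.1 0, p.2 5) * w (p.1 2, p.2 5))) *
      (w (p.1 1, p.2 6) * w (p.1 3, p.2 6) * (w (p.1 1, p.2 7) * w (p.1 3, p.2 7))) *
      (w (p.1 4, p.2 0) * w (p.1 4, p.2 2) * (w (p.1 5, p.2 0) * w (p.1 5, p.2 2))) *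
      (w (p.1 6, p.2 1) * w (p.1 6, p.2 3) * (w (p.1 7, p.2 1) * w (p.1 7, p.2 3))) *
      (w (p.1 1, p.2 10) * w (p.1 10, p.2 10) * w (p.1 10, p.2 0)) *
      (w (p.1 0, p.2 9) * w (p.1 9, p.2 9) * w (p.1 9, p.2 1)) := by
    intro p
    rw [einU, List.prod_toFinset _ hnd]
    simp only [List.map_cons, List.map_nil, List.prod_cons, List.prod_nil]
    ring
  rw [lintegral_congr e0, e2]
  rw [← lint_const (A := Fin 11) (B := Fin 11) μ ν ((∫⁻ x, _ ∂μ) * (∫⁻ x, _ ∂μ)), ← e11]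
  refine Eq.trans (lintegral_congr fun p => ?_) (e3.trans ?_)
  · ring
  refine Eq.trans (lintegral_congr fun p => ?_) (e4.trans ?_)
  · ring
  refine Eq.trans (lintegral_congr fun p => ?_) (e5.trans ?_)
  · ring
  refine Eq.trans (lintegral_congr fun p => ?_) (e6.trans ?_)
  · ring
  refine Eq.trans (lintegral_congr fun p => ?_) (e7.trans ?_)
  · ring
  refine Eq.trans (lintegral_congr fun p => ?_) (e8.trans ?_)
  · ring
  refine Eq.trans (lintegral_congr fun p => ?_) (e9.trans ?_)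
  · simp only [kap]; ring
  refine Eq.trans (lintegral_congr fun p => ?_) (e10.trans ?_)
  · simp only [kap]; ring
  exact lintegral_congr fun p => by ring

end form

/-- the explicit kernel -/
def MM : Fin 3 → Fin 3 → ℕ := ![![2, 2, 0], ![1, 1, 2], ![1, 1, 2]]

/-- the explicit bigraphon -/
def W0 (z : Fin 3 × Fin 3) : ℝ := (MM z.1 z.2 : ℝ)

/-- the uniform measure on three points -/
noncomputable def mu : Measure (Fin 3) := (3⁻¹ : ℝ≥0∞) • Measure.count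

instance : IsProbabilityMeasure mu := by
  refine ⟨?_⟩
  unfold mu
  rw [Measure.smul_apply, Measure.count_univ]
  simp only [ENat.card_eq_coe_fintype_card, Fintype.card_fin, smul_eq_mul]
  exact ENNReal.inv_mul_cancel (by norm_num) (by finiteness)

lemma lmu (f : Fin 3 → ℝ≥0∞) : ∫⁻ x, f x ∂mu = 3⁻¹ * ∑ x, f x := by
  unfold mu
  rw [lintegral_smul_measure, lintegral_count, tsum_fintype, smul_eq_mul]

lemma lintN (k : ℕ) (f : Fin 3 → ℕ) :
    ∫⁻ x, (3⁻¹ : ℝ≥0∞) ^ k * (f x : ℝ≥0∞) ∂mu = 3⁻¹ ^ (k + 1) * ((∑ x, f x : ℕ) : ℝ≥0∞) := by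
  rw [lmu]
  push_cast
  rw [← Finset.mul_sum]
  ring

lemma W0_big : IsBigraphon W0 := by
  refine ⟨Measurable.of_discrete, fun z => Nat.cast_nonneg _, 2, ?_⟩
  rintro ⟨x, y⟩
  fin_cases x <;> fin_cases y <;> simp [W0, MM]

lemma ex_W0 (z : Fin 3 × Fin 3) : ex W0 z = (MM z.1 z.2 : ℝ≥0∞) := by
  unfold ex W0
  simp

/-- natural-number versions -/
def codN (M : Fin 3 → Fin 3 → ℕ) (x z : Fin 3) : ℕ := ∑ y, M x y * M z y
/-- natural-number version of the rooted four-cycle count -/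
def alpN (M : Fin 3 → Fin 3 → ℕ) (x : Fin 3) : ℕ := ∑ z, codN M x z * codN M x z
/-- natural-number version of the three-step kernel -/
def kerN (x y : Fin 3) : ℕ := ∑ z, codN MM x z * MM z y
/-- transposed kernel -/
def MT (x y : Fin 3) : ℕ := MM y x
/-- natural-number version of `kap` -/
def kapN (x : Fin 3) : ℕ := ∑ y, kerN x y * alpN MT y
/-- natural-number version of `kap'` -/
def kapN' (y : Fin 3) : ℕ := ∑ x, alpN MM x * kerN x y

lemma cod_N (M : Fin 3 → Fin 3 → ℕ) (w : Fin 3 × Fin 3 → ℝ≥0∞)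
    (h : ∀ z, w z = (M z.1 z.2 : ℝ≥0∞)) (x z : Fin 3) :
    cod mu w (x, z) = 3⁻¹ ^ 1 * (codN M x z : ℝ≥0∞) := by
  unfold cod codN
  rw [← lintN 0]
  refine lintegral_congr fun y => ?_
  rw [h, h]
  push_cast
  ring

lemma alp_N (M : Fin 3 → Fin 3 → ℕ) (w : Fin 3 × Fin 3 → ℝ≥0∞)
    (h : ∀ z, w z = (M z.1 z.2 : ℝ≥0∞)) (x : Fin 3) :
    alp mu mu w x = 3⁻¹ ^ 3 * (alpN M x : ℝ≥0∞) := by
  unfold alp alpN
  rw [← lintN 2]
  refine lintegral_congr fun y => ?_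
  rw [cod_N M w h]
  push_cast
  ring

lemma ker_N (x y : Fin 3) :
    ker3 mu mu (ex W0) (x, y) = 3⁻¹ ^ 2 * (kerN x y : ℝ≥0∞) := by
  unfold ker3 kerN
  rw [← lintN 1]
  refine lintegral_congr fun z => ?_
  simp only
  rw [cod_N MM (ex W0) ex_W0, ex_W0]
  push_cast
  ring

lemma swp_W0 (z : Fin 3 × Fin 3) : swp (ex W0) z = (MT z.1 z.2 : ℝ≥0∞) := by
  unfold swp MT
  rw [ex_W0]

lemma kap_N (x : Fin 3) : kap mu mu (ex W0) x = 3⁻¹ ^ 6 * (kapN x : ℝ≥0∞) := by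
  unfold kap kapN
  rw [← lintN 5]
  refine lintegral_congr fun z => ?_
  rw [ker_N, alp_N MT _ swp_W0]
  push_cast
  ring

lemma kap_N' (y : Fin 3) : kap' mu mu (ex W0) y = 3⁻¹ ^ 6 * (kapN' y : ℝ≥0∞) := by
  unfold kap' kapN'
  rw [← lintN 5]
  refine lintegral_congr fun z => ?_
  rw [ker_N, alp_N MM _ ex_W0]
  push_cast
  ring

lemma val_G : dL mu mu GG.edges (ex W0) = 3⁻¹ ^ 22 * ((53111989207040 : ℕ) : ℝ≥0∞) := by
  rw [gform mu mu (ex_meas W0_big)]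
  have h1 : ∀ x, ∫⁻ y, ker3 mu mu (ex W0) (x, y) * alp mu mu (swp (ex W0)) y *
      kap' mu mu (ex W0) y ∂mu =
      3⁻¹ ^ 12 * ((∑ y, kerN x y * alpN MT y * kapN' y : ℕ) : ℝ≥0∞) := by
    intro x
    rw [← lintN 11]
    refine lintegral_congr fun y => ?_
    rw [ker_N, alp_N MT _ swp_W0, kap_N']
    push_cast
    ring
  have h2 : ∫⁻ x, alp mu mu (ex W0) x * kap mu mu (ex W0) x *
      ∫⁻ y, ker3 mu mu (ex W0) (x, y) * alp mu mu (swp (ex W0)) y *
      kap' mu mu (ex W0) y ∂mu ∂mu =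
      3⁻¹ ^ 22 * ((∑ x, alpN MM x * kapN x * ∑ y, kerN x y * alpN MT y * kapN' y : ℕ) : ℝ≥0∞) := by
    rw [← lintN 21]
    refine lintegral_congr fun x => ?_
    rw [h1, alp_N MM _ ex_W0, kap_N]
    push_cast
    ring
  rw [h2]
  congr 2

lemma val_U : dL mu mu (edgesIn GG UU) (ex W0) =
    3⁻¹ ^ 20 * (((1577984 * 1577984 : ℕ)) : ℝ≥0∞) := by
  rw [uform mu mu (ex_meas W0_big)]
  have h2 : ∫⁻ x, alp mu mu (ex W0) x * kap mu mu (ex W0) x ∂mu =
      3⁻¹ ^ 10 * ((∑ x, alpN MM x * kapN x : ℕ) : ℝ≥0∞) := by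
    rw [← lintN 9]
    refine lintegral_congr fun x => ?_
    rw [alp_N MM _ ex_W0, kap_N]
    push_cast
    ring
  have h3 : (∑ x, alpN MM x * kapN x : ℕ) = 1577984 := by decide +kernel
  rw [h2, h3]
  push_cast
  ring

lemma val_rho : dL mu mu rho.edges (ex W0) = 3⁻¹ ^ 2 * ((12 : ℕ) : ℝ≥0∞) := by
  rw [dL_rho mu mu (ex_meas W0_big)]
  have h1 : ∀ x, ∫⁻ y, ex W0 (x, y) ∂mu = 3⁻¹ ^ 1 * ((∑ y, MM x y : ℕ) : ℝ≥0∞) := by
    intro x
    rw [← lintN 0]
    refine lintegral_congr fun y => ?_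
    rw [ex_W0]
    ring
  have h2 : ∫⁻ x, ∫⁻ y, ex W0 (x, y) ∂mu ∂mu =
      3⁻¹ ^ 2 * ((∑ x, ∑ y, MM x y : ℕ) : ℝ≥0∞) := by
    rw [← lintN 1]
    refine lintegral_congr fun x => ?_
    rw [h1]
  have h3 : (∑ x, ∑ y, MM x y : ℕ) = 12 := by decide +kernel
  rw [h2, h3]

end Pool.Agent.R790.Rtd
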